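import Mathlib

/-!
Definitions for `MP_39dd1a_ag`: projective manifolds, families of parametrized rational curves,
the variety of minimal rational tangents, isotriviality.  Projective varieties are represented by
their affine cones.
-/

set_option autoImplicit false

namespace Pool.Agent.Helper48.VMRT

open MvPolynomial

/-- `S` is Zariski closed in the affine space `ℂ^ι`. -/
def ZClosed {ι : Type} (S : Set (ι → ℂ)) : Prop :=
  zeroLocus ℂ (vanishingIdeal ℂ S) = S

/-- The (affine cone over the projective) Zariski tangent space of the set `X` at `x`: the common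
kernel of the differentials at `x` of all polynomials vanishing on `X`. -/
def tangentSpace {m : ℕ} (X : Set (Fin m → ℂ)) (x : Fin m → ℂ) : Submodule ℂ (Fin m → ℂ) where
  carrier := {w | ∀ p ∈ vanishingIdeal ℂ X, ∑ i, eval x (pderiv i p) * w i = 0}
  zero_mem' := fun p _ => by simp
  add_mem' := fun {a b} ha hb p hp => by
    simp only [Pi.add_apply, mul_add, Finset.sum_add_distrib, ha p hp, hb p hp, add_zero]
  smul_mem' := fun c a ha p hp => by
    have h : ∑ i, eval x (pderiv i p) * (c • a) i = c * ∑ i, eval x (pderiv i p) * a i := by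
      rw [Finset.mul_sum]
      exact Finset.sum_congr rfl fun i _ => by simp only [Pi.smul_apply, smul_eq_mul]; ring
    rw [h, ha p hp, mul_zero]

/-- `X ⊆ ℂ^(N+1)` is the affine cone over an irreducible nonsingular projective variety of
dimension `n` in `ℙ^N`: `X` is closed, stable under scalars, irreducible, contains a nonzero
vector, and at each nonzero vector its tangent space has dimension `n + 1`. -/
structure IsProjManifold (n N : ℕ) (X : Set (Fin (N + 1) → ℂ)) : Prop where
  closed : ZClosed X
  cone : ∀ a : ℂ, ∀ x ∈ X, a • x ∈ X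
  irred : (vanishingIdeal ℂ X).IsPrime
  exists_ne : ∃ x ∈ X, x ≠ 0
  smooth : ∀ x ∈ X, x ≠ 0 → Module.finrank ℂ (tangentSpace X x) = n + 1

variable {N d : ℕ}

/-- The coefficient arrays of `N + 1` binary forms of degree `d`. -/
abbrev Coef (N d : ℕ) : Type := Fin (N + 1) × Fin (d + 1) → ℂ

/-- The value at `(s, t)` of the `N + 1` binary forms `∑ⱼ c (i, j) s^(d-j) t^j`. -/
def pt (c : Coef N d) (s t : ℂ) : Fin (N + 1) → ℂ :=
  fun i => ∑ j : Fin (d + 1), c (i, j) * s ^ (d - (j : ℕ)) * t ^ (j : ℕ)

/-- The partial derivatives of `pt c s t` with respect to `s`. -/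
noncomputable def dps (c : Coef N d) (s t : ℂ) : Fin (N + 1) → ℂ :=
  fun i => deriv (fun x => pt c x t i) s

/-- The partial derivatives of `pt c s t` with respect to `t`. -/
noncomputable def dpt (c : Coef N d) (s t : ℂ) : Fin (N + 1) → ℂ :=
  fun i => deriv (fun y => pt c s y i) t

/-- The binary forms `c` define a morphism `ℙ¹ → ℙ^N` with image in the projective variety with
cone `X`, which is birational onto its image (all but finitely many points `[1 : z]` are the only
point of their fibre). -/
structure IsCurve (X : Set (Fin (N + 1) → ℂ)) (c : Coef N d) : Prop where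
  ne_zero : ∀ s t : ℂ, (s, t) ≠ (0, 0) → pt c s t ≠ 0
  mem : ∀ s t : ℂ, pt c s t ∈ X
  birational : {z : ℂ | ∃ s t : ℂ, (s, t) ≠ (0, 0) ∧ t ≠ z * s ∧
    ∃ a : ℂ, pt c s t = a • pt c 1 z}.Finite

/-- The image curve of `c` is nonsingular at the image of `[s : t]`: the morphism is an immersion
at `[s : t]`, and `[s : t]` is the only point of its fibre. -/
structure SmoothAt (c : Coef N d) (s t : ℂ) : Prop where
  ne : (s, t) ≠ (0, 0)
  immersive : LinearIndependent ℂ ![dps c s t, dpt c s t]
  unique : ∀ s' t' : ℂ, (s', t') ≠ (0, 0) → (∃ a : ℂ, pt c s' t' = a • pt c s t) →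
    s * t' = t * s'

/-- The union of the tangent spaces at `[v]` (planes containing `v` in `ℂ^(N+1)`) of the curves of
the family `H` which pass through `[v]` and are nonsingular there. -/
def tangents (H : Set (Coef N d)) (v : Fin (N + 1) → ℂ) : Set (Fin (N + 1) → ℂ) :=
  {w | ∃ c ∈ H, ∃ s t : ℂ, SmoothAt c s t ∧ pt c s t = v ∧
    ∃ a b : ℂ, w = a • dps c s t + b • dpt c s t}

/-- The variety of tangents of the family `H` at `[v]`: the Zariski closure of `tangents H v`.  It
is the preimage in `ℂ^(N+1)` of the affine cone over the closure of the set of tangent directions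
of the members of `H` through `[v]` which are nonsingular at `[v]`. -/
noncomputable def vmrtCone (H : Set (Coef N d)) (v : Fin (N + 1) → ℂ) : Set (Fin (N + 1) → ℂ) :=
  zeroLocus ℂ (vanishingIdeal ℂ (tangents H v))

/-- An irreducible algebraic family of parametrized rational curves of degree `d` in `X`. -/
structure IsFamily (X : Set (Fin (N + 1) → ℂ)) (H : Set (Coef N d)) : Prop where
  curve : ∀ c ∈ H, IsCurve X c
  irred : (vanishingIdeal ℂ H).IsPrime
  locallyClosed : ∃ A B : Set (Coef N d), ZClosed A ∧ ZClosed B ∧ H = A \ B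

/-- At the point `[v]` of `X`, the pair `𝒞_v ⊆ ℙ T_v X` is linearly isomorphic to the pair
`Z ⊆ ℙ V`, `V = ℂ^n`: there is an isomorphism `g` of `V` with a complement of the line `ℂ v` in
the tangent space of the cone `X` (that is, with `T_v X`), taking the cone `Z` to the cone of the
variety of tangents. -/
def IsotrivialAt {n : ℕ} (X : Set (Fin (N + 1) → ℂ)) (H : Set (Coef N d))
    (Z : Set (Fin n → ℂ)) (v : Fin (N + 1) → ℂ) : Prop :=
  ∃ g : (Fin n → ℂ) →ₗ[ℂ] (Fin (N + 1) → ℂ), Function.Injective g ∧
    LinearMap.range g ⊓ Submodule.span ℂ {v} = ⊥ ∧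
    LinearMap.range g ⊔ Submodule.span ℂ {v} = tangentSpace X v ∧
    vmrtCone H v = {u | ∃ z ∈ Z, ∃ a : ℂ, u = g z + a • v}

/-- The variety of tangents of the family `H` on `X` is `Z`-isotrivial: the condition holds at the
general point of `X`. -/
def Isotrivial {n : ℕ} (X : Set (Fin (N + 1) → ℂ)) (H : Set (Coef N d))
    (Z : Set (Fin n → ℂ)) : Prop :=
  ∃ B : Set (Fin (N + 1) → ℂ), ZClosed B ∧ (∃ v ∈ X, v ≠ 0 ∧ v ∉ B) ∧
    ∀ v ∈ X, v ≠ 0 → v ∉ B → IsotrivialAt X H Z v

/-- `Z₁, Z₂, …` are the irreducible components of the projective variety with affine cone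
`⋃ i, Z i`. -/
structure IsComponents {n : ℕ} {ι : Type} (Z : ι → Set (Fin n → ℂ)) : Prop where
  closed : ∀ i, ZClosed (Z i)
  cone : ∀ i, ∀ a : ℂ, ∀ x ∈ Z i, a • x ∈ Z i
  irred : ∀ i, (vanishingIdeal ℂ (Z i)).IsPrime
  exists_ne : ∀ i, ∃ x ∈ Z i, x ≠ 0
  irredundant : ∀ i j, Z i ⊆ Z j → i = j

end Pool.Agent.Helper48.VMRT
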