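import Mathlib

/-!
Extension of embeddings of countable rings to automorphisms of `ℂ`, generic points.
-/

set_option autoImplicit false

namespace Pool.Agent.Helper48.VMRT

open MvPolynomial Cardinal

/-- Two algebraically closed fields of the cardinality of the continuum containing the same countable
domain are isomorphic over it. -/
theorem equiv_ext {R K L : Type} [CommRing R] [Countable R] [Nontrivial R] [Field K] [Field L]
    [Algebra R K] [Algebra R L] [FaithfulSMul R K] [FaithfulSMul R L] [IsAlgClosed K]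
    [IsAlgClosed L] (hK : #K = 𝔠) (hL : #L = 𝔠) :
    ∃ σ : K ≃+* L, ∀ r : R, σ (algebraMap R K r) = algebraMap R L r := by
  obtain ⟨s, v, hv⟩ := exists_isTranscendenceBasis' R K
  obtain ⟨t, w, hw⟩ := exists_isTranscendenceBasis' R L
  have hR : #R ≤ ℵ₀ := Cardinal.mk_le_aleph0
  have hs := IsAlgClosed.cardinal_eq_cardinal_transcendence_basis_of_aleph0_lt' v hv hR
    (by rw [hK]; exact aleph0_lt_continuum)
  have ht := IsAlgClosed.cardinal_eq_cardinal_transcendence_basis_of_aleph0_lt' w hw hR
    (by rw [hL]; exact aleph0_lt_continuum)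
  have hst : #s = #t := by rw [← hs, ← ht, hK, hL]
  obtain ⟨e⟩ := Cardinal.eq.1 hst
  let _ := IsAlgClosed.isAlgClosure_of_transcendence_basis v hv
  let _ := IsAlgClosed.isAlgClosure_of_transcendence_basis w hw
  let f : Algebra.adjoin R (Set.range v) ≃ₐ[R] Algebra.adjoin R (Set.range w) :=
    (hv.1.aevalEquiv.symm.trans (MvPolynomial.renameEquiv R e)).trans hw.1.aevalEquiv
  refine ⟨IsAlgClosure.equivOfEquiv K L f.toRingEquiv, fun r => ?_⟩
  have h1 : algebraMap R K r = algebraMap (Algebra.adjoin R (Set.range v)) K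
      (algebraMap R _ r) := rfl
  rw [h1, IsAlgClosure.equivOfEquiv_algebraMap]
  have h2 : f.toRingEquiv (algebraMap R _ r) = algebraMap R _ r := f.commutes r
  rw [h2]
  rfl

theorem mk_complex_aut {R : Type} [CommRing R] [Countable R] (j₁ j₂ : R →+* ℂ)
    (h₁ : Function.Injective j₁) (h₂ : Function.Injective j₂) :
    ∃ σ : ℂ ≃+* ℂ, ∀ r, σ (j₁ r) = j₂ r := by
  have hn : Nontrivial R := by
    refine ⟨0, 1, fun h => ?_⟩
    have := congrArg j₁ h
    simp at this
  exact @equiv_ext R ℂ ℂ _ _ hn _ _ j₁.toAlgebra j₂.toAlgebra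
    ((@faithfulSMul_iff_algebraMap_injective R ℂ _ _ j₁.toAlgebra).2 h₁)
    ((@faithfulSMul_iff_algebraMap_injective R ℂ _ _ j₂.toAlgebra).2 h₂) _ _
    Cardinal.mk_complex Cardinal.mk_complex

/-- Homogeneity: two points with the same polynomial relations over a countable field `k` are
conjugate under `Aut(ℂ/k)`. -/
theorem homog {k : Type} [Field k] [Countable k] [Algebra k ℂ] {ι : Type} [Countable ι]
    (x y : ι → ℂ) (h : ∀ p : MvPolynomial ι k, aeval x p = 0 ↔ aeval y p = 0) :
    ∃ σ : ℂ ≃ₐ[k] ℂ, ∀ i, σ (x i) = y i := by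
  let I : Ideal (MvPolynomial ι k) := RingHom.ker (aeval x : MvPolynomial ι k →ₐ[k] ℂ)
  have hI : I = RingHom.ker (aeval y : MvPolynomial ι k →ₐ[k] ℂ) := by
    ext p
    exact h p
  let R := MvPolynomial ι k ⧸ I
  have : Countable (MvPolynomial ι k) := by
    have := MvPolynomial.cardinalMk_le_max (σ := ι) (R := k)
    rw [← Cardinal.mk_le_aleph0_iff]
    refine this.trans ?_
    simp [Cardinal.mk_le_aleph0]
  have : Countable R := Quotient.countable
  let j₁ : R →ₐ[k] ℂ := Ideal.Quotient.liftₐ I (aeval x) (fun a ha => ha)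
  let j₂ : R →ₐ[k] ℂ := Ideal.Quotient.liftₐ I (aeval y) (fun a ha => by rw [hI] at ha; exact ha)
  have h₁ : Function.Injective j₁ := by
    rw [injective_iff_map_eq_zero]
    intro a ha
    obtain ⟨p, rfl⟩ := Ideal.Quotient.mk_surjective a
    have hp : aeval x p = 0 := by
      rw [← ha]
      exact (Ideal.Quotient.lift_mk I _ _).symm
    exact Ideal.Quotient.eq_zero_iff_mem.2 hp
  have h₂ : Function.Injective j₂ := by
    rw [injective_iff_map_eq_zero]
    intro a ha
    obtain ⟨p, rfl⟩ := Ideal.Quotient.mk_surjective a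
    have hp : aeval y p = 0 := by
      rw [← ha]
      exact (Ideal.Quotient.lift_mk I _ _).symm
    exact Ideal.Quotient.eq_zero_iff_mem.2 ((h p).2 hp)
  obtain ⟨σ, hσ⟩ := mk_complex_aut (j₁ : R →+* ℂ) (j₂ : R →+* ℂ) h₁ h₂
  refine ⟨AlgEquiv.ofRingEquiv (f := σ) (fun c => ?_), fun i => ?_⟩
  · have := hσ (algebraMap k R c)
    simpa using this
  · have h3 := hσ (Ideal.Quotient.mk I (X i))
    have h4 : (j₁ : R →+* ℂ) (Ideal.Quotient.mk I (X i)) = x i := by
      have := Ideal.Quotient.lift_mk I (aeval x : MvPolynomial ι k →ₐ[k] ℂ).toRingHom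
        (a := X i) (fun a ha => ha)
      exact this.trans (aeval_X x i)
    have h5 : (j₂ : R →+* ℂ) (Ideal.Quotient.mk I (X i)) = y i := by
      have := Ideal.Quotient.lift_mk I (aeval y : MvPolynomial ι k →ₐ[k] ℂ).toRingHom
        (a := X i) (fun a ha => by rw [hI] at ha; exact ha)
      exact this.trans (aeval_X y i)
    rw [h4, h5] at h3
    exact h3

theorem mk_big (R : Type) [CommRing R] [Countable R] [IsDomain R] :
    #(AlgebraicClosure (FractionRing (MvPolynomial ℂ R))) = 𝔠 := by
  have hR : #R ≤ ℵ₀ := Cardinal.mk_le_aleph0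
  have h1 : #(MvPolynomial ℂ R) = 𝔠 := by
    rw [MvPolynomial.cardinalMk_eq_max, Cardinal.mk_complex]
    rw [max_eq_left (aleph0_le_continuum.trans (le_max_right _ _)),
      max_eq_right (hR.trans aleph0_le_continuum)]
  have h2 : #(FractionRing (MvPolynomial ℂ R)) = 𝔠 := by
    rw [FractionRing.cardinalMk, h1]
  refine le_antisymm ?_ ?_
  · refine (Algebra.IsAlgebraic.cardinalMk_le_max (FractionRing (MvPolynomial ℂ R)) _).trans ?_
    rw [h2]
    exact max_le le_rfl aleph0_le_continuum
  · rw [← h2]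
    exact Cardinal.mk_le_of_injective
      (algebraMap (FractionRing (MvPolynomial ℂ R)) (AlgebraicClosure _)).injective

/-- A countable domain over a countable field `k` embeds in `ℂ` over `k`. -/
theorem embed {k : Type} [Field k] [Countable k] [Algebra k ℂ] (R : Type) [CommRing R]
    [Countable R] [IsDomain R] [Algebra k R] :
    ∃ j : R →ₐ[k] ℂ, Function.Injective j := by
  let K := AlgebraicClosure (FractionRing (MvPolynomial ℂ R))
  let φ : R →+* K := (algebraMap (FractionRing (MvPolynomial ℂ R)) K).comp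
    ((algebraMap (MvPolynomial ℂ R) (FractionRing (MvPolynomial ℂ R))).comp MvPolynomial.C)
  have hφ : Function.Injective φ := by
    have h1 := (algebraMap (FractionRing (MvPolynomial ℂ R)) K).injective
    have h2 := IsFractionRing.injective (MvPolynomial ℂ R) (FractionRing (MvPolynomial ℂ R))
    have h3 := MvPolynomial.C_injective ℂ R
    exact (h1.comp (h2.comp h3))
  have hf1 : FaithfulSMul k K := (faithfulSMul_iff_algebraMap_injective k K).2
    (algebraMap k K).injective
  have hf2 : FaithfulSMul k ℂ := (faithfulSMul_iff_algebraMap_injective k ℂ).2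
    (algebraMap k ℂ).injective
  obtain ⟨σ, hσ⟩ := equiv_ext (R := k) (K := K) (L := ℂ) (mk_big R) Cardinal.mk_complex
  have hk : ∀ r : k, algebraMap k K r = φ (algebraMap k R r) := by
    intro r
    rw [IsScalarTower.algebraMap_apply k (FractionRing (MvPolynomial ℂ R)) K,
      IsScalarTower.algebraMap_apply k (MvPolynomial ℂ R) (FractionRing (MvPolynomial ℂ R))]
    rfl
  refine ⟨{ (σ : K →+* ℂ).comp φ with commutes' := fun r => ?_ }, fun a b h => ?_⟩
  · rw [← hσ r, hk r]
    rfl
  · exact hφ (σ.injective h)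

/-- Generic point of a prime ideal over a countable field. -/
theorem exists_generic {k : Type} [Field k] [Countable k] [Algebra k ℂ] {ι : Type} [Countable ι]
    (P : Ideal (MvPolynomial ι k)) (hP : P.IsPrime) :
    ∃ x : ι → ℂ, ∀ p : MvPolynomial ι k, aeval x p = 0 ↔ p ∈ P := by
  have hc : Countable (MvPolynomial ι k) := by
    have := MvPolynomial.cardinalMk_le_max (σ := ι) (R := k)
    rw [← Cardinal.mk_le_aleph0_iff]
    refine this.trans ?_
    simp [Cardinal.mk_le_aleph0]
  have hcR : Countable (MvPolynomial ι k ⧸ P) := Quotient.countable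
  obtain ⟨j, hj⟩ := embed (k := k) (MvPolynomial ι k ⧸ P)
  refine ⟨fun i => j (Ideal.Quotient.mk P (X i)), fun p => ?_⟩
  have h1 : aeval (fun i => j (Ideal.Quotient.mk P (X i))) p = j (Ideal.Quotient.mk P p) := by
    have : (aeval (fun i => j (Ideal.Quotient.mk P (X i))) : MvPolynomial ι k →ₐ[k] ℂ) =
        j.comp (Ideal.Quotient.mkₐ k P) := by
      refine MvPolynomial.algHom_ext fun i => ?_
      simp
    rw [this]
    rfl
  rw [h1, map_eq_zero_iff j hj, Ideal.Quotient.eq_zero_iff_mem]

end Pool.Agent.Helper48.VMRT
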