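import Mathlib
import Pool.Agent.Helper48.VMRT.Field

/-!
Fixed fields of `Aut(ℂ/k)` for countable `k`, descent of stable subspaces of polynomials, clearing
denominators.
-/

set_option autoImplicit false

namespace Pool.Agent.Helper48.VMRT

open MvPolynomial Cardinal

theorem homog1 {k : Type} [Field k] [Countable k] [Algebra k ℂ] (x y : ℂ)
    (h : ∀ p : Polynomial k, Polynomial.aeval x p = 0 ↔ Polynomial.aeval y p = 0) :
    ∃ σ : ℂ ≃ₐ[k] ℂ, σ x = y := by
  have key : ∀ (z : ℂ) (p : MvPolynomial Unit k),
      aeval (fun _ : Unit => z) p = Polynomial.aeval z (uniqueAlgEquiv k Unit p) := by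
    intro z p
    have h1 : (aeval (fun _ : Unit => z) : MvPolynomial Unit k →ₐ[k] ℂ) =
        (Polynomial.aeval z).comp (uniqueAlgEquiv k Unit).toAlgHom := by
      refine MvPolynomial.algHom_ext fun i => ?_
      simp
    rw [h1]
    rfl
  obtain ⟨σ, hσ⟩ := homog (k := k) (fun _ : Unit => x) (fun _ : Unit => y) (fun p => by
    rw [key, key, h])
  exact ⟨σ, hσ ()⟩

theorem exists_moving {k : Type} [Field k] [Countable k] [Algebra k ℂ] (c : ℂ)
    (hc : c ∉ Set.range (algebraMap k ℂ)) : ∃ σ : ℂ ≃ₐ[k] ℂ, σ c ≠ c := by
  have hcz : CharZero k := (algebraMap k ℂ).charZero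
  by_cases hi : IsIntegral k c
  · have hirr := minpoly.irreducible hi
    have hsep : (minpoly k c).Separable := hirr.separable
    have hdeg : 2 ≤ (minpoly k c).natDegree := by
      rw [minpoly.two_le_natDegree_iff hi]
      exact fun h => hc h
    have hsplit : ((minpoly k c).map (algebraMap k ℂ)).Splits :=
      IsAlgClosed.splits _
    have hcard : Fintype.card ((minpoly k c).rootSet ℂ) = (minpoly k c).natDegree :=
      Polynomial.card_rootSet_eq_natDegree hsep hsplit
    have h1 : 1 < Fintype.card ((minpoly k c).rootSet ℂ) := by omega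
    obtain ⟨⟨c', hc'⟩, hne⟩ := Fintype.exists_ne_of_one_lt_card h1
      ⟨c, (Polynomial.mem_rootSet.2 ⟨hirr.ne_zero, minpoly.aeval k c⟩)⟩
    have hc'0 : Polynomial.aeval c' (minpoly k c) = 0 := (Polynomial.mem_rootSet.1 hc').2
    have hm : minpoly k c = minpoly k c' :=
      minpoly.eq_of_irreducible_of_monic hirr hc'0 (minpoly.monic hi)
    obtain ⟨σ, hσ⟩ := homog1 (k := k) c c' (fun p => by
      rw [← minpoly.dvd_iff, ← minpoly.dvd_iff, hm])
    refine ⟨σ, fun h => hne ?_⟩
    rw [hσ] at h
    exact Subtype.ext h
  · have htr : Transcendental k c := fun h => hi h.isIntegral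
    have htr' : Transcendental k (c + 1) := by
      intro h
      apply htr
      have := h.sub (isAlgebraic_one (R := k) (A := ℂ))
      simpa using this
    obtain ⟨σ, hσ⟩ := homog1 (k := k) c (c + 1) (fun p => by
      constructor
      · intro h
        have := (transcendental_iff.1 htr) p h
        rw [this, map_zero]
      · intro h
        have := (transcendental_iff.1 htr') p h
        rw [this, map_zero])
    exact ⟨σ, by rw [hσ]; simp⟩

theorem fixed {k : Type} [Field k] [Countable k] [Algebra k ℂ] (c : ℂ)
    (h : ∀ σ : ℂ ≃ₐ[k] ℂ, σ c = c) : c ∈ Set.range (algebraMap k ℂ) := by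
  by_contra hc
  obtain ⟨σ, hσ⟩ := exists_moving c hc
  exact hσ (h σ)

/-- Galois descent for a subspace of polynomials stable under `Aut(ℂ/k)`. -/
theorem descent {k : Type} [Field k] [Countable k] [Algebra k ℂ] {m : Type}
    (W : Submodule ℂ (MvPolynomial m ℂ))
    (hW : ∀ (σ : ℂ ≃ₐ[k] ℂ), ∀ q ∈ W, MvPolynomial.map (σ : ℂ →+* ℂ) q ∈ W) :
    ∀ q ∈ W, q ∈ Submodule.span ℂ
      {p : MvPolynomial m ℂ | p ∈ W ∧ ∃ p₀ : MvPolynomial m k,
        MvPolynomial.map (algebraMap k ℂ) p₀ = p} := by
  classical
  set S : Set (MvPolynomial m ℂ) := {p : MvPolynomial m ℂ | p ∈ W ∧ ∃ p₀ : MvPolynomial m k,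
        MvPolynomial.map (algebraMap k ℂ) p₀ = p} with hS
  have main : ∀ (n : ℕ), ∀ q ∈ W, q.support.card = n → q ∈ Submodule.span ℂ S := by
    intro n
    induction n using Nat.strong_induction_on with
    | _ n ih =>
      intro q hq hn
      by_cases h0 : q = 0
      · rw [h0]
        exact Submodule.zero_mem _
      -- an element of minimal support
      have hex : ∃ r : ℕ, ∃ p ∈ W, p ≠ 0 ∧ p.support ⊆ q.support ∧ p.support.card = r :=
        ⟨_, q, hq, h0, Finset.Subset.refl _, rfl⟩
      obtain ⟨p, hpW, hp0, hps, hpr⟩ := Nat.find_spec hex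
      have hmin : ∀ p' ∈ W, p'.support ⊆ q.support → p'.support.card < Nat.find hex →
          p' = 0 := by
        intro p' hp' hs' hc'
        by_contra hne
        exact Nat.find_min hex hc' ⟨p', hp', hne, hs', rfl⟩
      obtain ⟨e, he⟩ := MvPolynomial.support_nonempty.2 hp0
      have hce : coeff e p ≠ 0 := MvPolynomial.mem_support_iff.1 he
      set p1 : MvPolynomial m ℂ := (coeff e p)⁻¹ • p with hp1
      have hp1W : p1 ∈ W := W.smul_mem _ hpW
      have hp1e : coeff e p1 = 1 := by
        rw [hp1, coeff_smul, smul_eq_mul, inv_mul_cancel₀ hce]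
      have hp1s : p1.support ⊆ p.support := MvPolynomial.support_smul
      have hfix : ∀ σ : ℂ ≃ₐ[k] ℂ, MvPolynomial.map (σ : ℂ →+* ℂ) p1 = p1 := by
        intro σ
        have hsub : MvPolynomial.map (σ : ℂ →+* ℂ) p1 - p1 = 0 := by
          have hsup : (MvPolynomial.map (σ : ℂ →+* ℂ) p1 - p1).support ⊆ p.support.erase e := by
            intro f hf
            rw [MvPolynomial.mem_support_iff] at hf
            rw [Finset.mem_erase]
            constructor
            · rintro rfl
              apply hf
              rw [coeff_sub, coeff_map, hp1e]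
              simp
            · by_contra hfp
              apply hf
              have : coeff f p1 = 0 := by
                by_contra hne
                exact hfp (hp1s (MvPolynomial.mem_support_iff.2 hne))
              rw [coeff_sub, coeff_map, this]
              simp
          apply hmin _ (W.sub_mem (hW σ _ hp1W) hp1W)
          · exact hsup.trans ((Finset.erase_subset _ _).trans hps)
          · calc _ ≤ (p.support.erase e).card := Finset.card_le_card hsup
              _ < p.support.card := Finset.card_erase_lt_of_mem he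
              _ = _ := hpr
        exact sub_eq_zero.1 hsub
      have hcoef : ∀ f, coeff f p1 ∈ Set.range (algebraMap k ℂ) := by
        intro f
        apply fixed
        intro σ
        have := congrArg (coeff f) (hfix σ)
        rwa [coeff_map] at this
      have hrange : ∃ p₀ : MvPolynomial m k, MvPolynomial.map (algebraMap k ℂ) p₀ = p1 := by
        have : p1 ∈ Set.range (MvPolynomial.map (algebraMap k ℂ) : MvPolynomial m k →+* _) := by
          rw [MvPolynomial.mem_range_map_iff_coeffs_subset]
          intro a ha
          obtain ⟨f, _, rfl⟩ := MvPolynomial.mem_coeffs_iff.1 ha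
          exact hcoef f
        exact this
      have hp1S : p1 ∈ S := ⟨hp1W, hrange⟩
      have hq' : q - coeff e q • p1 ∈ Submodule.span ℂ S := by
        have hsup : (q - coeff e q • p1).support ⊆ q.support.erase e := by
          intro f hf
          rw [MvPolynomial.mem_support_iff] at hf
          rw [Finset.mem_erase]
          constructor
          · rintro rfl
            apply hf
            rw [coeff_sub, coeff_smul, hp1e]
            simp
          · by_contra hfq
            apply hf
            have h1 : coeff f p1 = 0 := by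
              by_contra hne
              exact hfq (hps (hp1s (MvPolynomial.mem_support_iff.2 hne)))
            have h2 : coeff f q = 0 := by
              by_contra hne
              exact hfq (MvPolynomial.mem_support_iff.2 hne)
            rw [coeff_sub, coeff_smul, h1, h2]
            simp
        refine ih _ ?_ _ (W.sub_mem hq (W.smul_mem _ hp1W)) rfl
        calc _ ≤ (q.support.erase e).card := Finset.card_le_card hsup
          _ < q.support.card := Finset.card_erase_lt_of_mem (hps he)
          _ = n := hn
      have : q = (q - coeff e q • p1) + coeff e q • p1 := by ring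
      rw [this]
      exact Submodule.add_mem _ hq' (Submodule.smul_mem _ _ (Submodule.subset_span hp1S))
  intro q hq
  exact main _ q hq rfl

/-- Clearing denominators over `k(v)`. -/
theorem clear {k : Type} [Field k] [Algebra k ℂ] {m : Type} (v : m → ℂ) {m' : Type}
    (p : MvPolynomial m' (IntermediateField.adjoin k (Set.range v))) :
    ∃ (P : MvPolynomial (m ⊕ m') k) (q : MvPolynomial m k), aeval v q ≠ 0 ∧
      ∀ x : m' → ℂ, aeval (Sum.elim v x) P = aeval v q * aeval x p := by
  induction p using MvPolynomial.induction_on with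
  | C a =>
    obtain ⟨r, s, hrs⟩ := (IntermediateField.mem_adjoin_range_iff (F := k) v (a : ℂ)).1 a.2
    by_cases hs : aeval v s = 0
    · refine ⟨0, 1, by simp, fun x => ?_⟩
      have ha : (a : ℂ) = 0 := by rw [hrs, hs, div_zero]
      have : algebraMap (IntermediateField.adjoin k (Set.range v)) ℂ a = 0 := ha
      simp [this]
    · refine ⟨rename Sum.inl r, s, hs, fun x => ?_⟩
      have ha : algebraMap (IntermediateField.adjoin k (Set.range v)) ℂ a =
        aeval v r / aeval v s := hrs
      rw [aeval_rename, aeval_C, ha]
      have : Sum.elim v x ∘ Sum.inl = v := rfl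
      rw [this]
      field_simp
  | add p₁ p₂ h₁ h₂ =>
    obtain ⟨P₁, q₁, hq₁, h₁⟩ := h₁
    obtain ⟨P₂, q₂, hq₂, h₂⟩ := h₂
    refine ⟨P₁ * rename Sum.inl q₂ + P₂ * rename Sum.inl q₁, q₁ * q₂, ?_, fun x => ?_⟩
    · rw [map_mul]
      exact mul_ne_zero hq₁ hq₂
    · rw [map_add, map_mul, map_mul, h₁, h₂, aeval_rename, aeval_rename, map_mul, map_add]
      have : Sum.elim v x ∘ Sum.inl = v := rfl
      rw [this]
      ring
  | mul_X p i h =>
    obtain ⟨P, q, hq, h⟩ := h
    refine ⟨P * X (Sum.inr i), q, hq, fun x => ?_⟩
    rw [map_mul, map_mul, h, aeval_X, aeval_X, mul_assoc]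
    rfl

end Pool.Agent.Helper48.VMRT
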