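import Mathlib
import Pool.Agent.Helper48.VMRT.Defs
import Pool.Agent.Helper48.VMRT.Descent

/-!
Action of `Aut(ℂ/k)` on closed sets, tangent spaces, and varieties of tangents.
-/

set_option autoImplicit false

namespace Pool.Agent.Helper48.VMRT

open MvPolynomial Cardinal

section basic

variable {ι : Type}

theorem eval_conj (σ : ℂ ≃+* ℂ) (x : ι → ℂ) (p : MvPolynomial ι ℂ) :
    eval (fun i => σ (x i)) (MvPolynomial.map (σ : ℂ →+* ℂ) p) = σ (eval x p) := by
  induction p using MvPolynomial.induction_on with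
  | C a => simp
  | add p q hp hq => simp [hp, hq]
  | mul_X p i hp => simp [hp]

theorem eval_conj' (σ : ℂ ≃+* ℂ) (x : ι → ℂ) (p : MvPolynomial ι ℂ) :
    eval (fun i => σ (x i)) p = σ (eval x (MvPolynomial.map (σ.symm : ℂ →+* ℂ) p)) := by
  rw [← eval_conj, MvPolynomial.map_map]
  have : ((σ : ℂ →+* ℂ).comp (σ.symm : ℂ →+* ℂ)) = RingHom.id ℂ := by
    ext a
    simp
  rw [this, MvPolynomial.map_id]

theorem aeval_conj {k : Type} [Field k] [Algebra k ℂ] (σ : ℂ ≃ₐ[k] ℂ) (x : ι → ℂ)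
    (p : MvPolynomial ι k) : aeval (fun i => σ (x i)) p = σ (aeval x p) := by
  have h1 : (aeval (fun i => σ (x i)) : MvPolynomial ι k →ₐ[k] ℂ) =
      (σ : ℂ →ₐ[k] ℂ).comp (aeval x) := by
    refine MvPolynomial.algHom_ext fun i => ?_
    simp
  rw [h1]
  rfl

theorem aeval_eq_eval_map {k : Type} [Field k] [Algebra k ℂ] (x : ι → ℂ)
    (p : MvPolynomial ι k) : aeval x p = eval x (MvPolynomial.map (algebraMap k ℂ) p) := by
  rw [MvPolynomial.eval_map]
  rfl

/-- `S` is the zero locus of polynomials with coefficients in `k`. -/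
def DefOver (k : Type) [Field k] [Algebra k ℂ] (S : Set (ι → ℂ)) : Prop :=
  zeroLocus ℂ (vanishingIdeal k S) = S

theorem DefOver.conj {k : Type} [Field k] [Algebra k ℂ] {S : Set (ι → ℂ)} (hS : DefOver k S)
    (σ : ℂ ≃ₐ[k] ℂ) {x : ι → ℂ} (hx : x ∈ S) : (fun i => σ (x i)) ∈ S := by
  rw [← hS, mem_zeroLocus_iff]
  intro p hp
  rw [aeval_conj, (mem_vanishingIdeal_iff.1 hp) x hx, map_zero]

theorem mem_vI {S : Set (ι → ℂ)} {p : MvPolynomial ι ℂ} :
    p ∈ vanishingIdeal ℂ S ↔ ∀ x ∈ S, eval x p = 0 := by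
  rw [mem_vanishingIdeal_iff]
  rfl

theorem mem_cl {S : Set (ι → ℂ)} {x : ι → ℂ} :
    x ∈ zeroLocus ℂ (vanishingIdeal ℂ S) ↔ ∀ p : MvPolynomial ι ℂ, (∀ y ∈ S, eval y p = 0) →
      eval x p = 0 := by
  rw [mem_zeroLocus_iff]
  constructor
  · intro h p hp
    exact h p (mem_vI.2 hp)
  · intro h p hp
    exact h p (mem_vI.1 hp)

theorem ZClosed.mem_iff {S : Set (ι → ℂ)} (hS : ZClosed S) {x : ι → ℂ} :
    x ∈ S ↔ ∀ p : MvPolynomial ι ℂ, (∀ y ∈ S, eval y p = 0) → eval x p = 0 := by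
  rw [← mem_cl]
  unfold ZClosed at hS
  rw [hS]

theorem subset_cl (S : Set (ι → ℂ)) : S ⊆ zeroLocus ℂ (vanishingIdeal ℂ S) := by
  intro x hx
  rw [mem_cl]
  exact fun p hp => hp x hx

/-- The closure of a set stable under all `σ` over `k` is stable. -/
theorem cl_conj (σ : ℂ ≃+* ℂ) {S : Set (ι → ℂ)} (h : ∀ x ∈ S, (fun i => σ (x i)) ∈ S)
    {x : ι → ℂ} (hx : x ∈ zeroLocus ℂ (vanishingIdeal ℂ S)) :
    (fun i => σ (x i)) ∈ zeroLocus ℂ (vanishingIdeal ℂ S) := by
  rw [mem_cl] at hx ⊢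
  intro p hp
  rw [eval_conj', hx, map_zero]
  intro y hy
  have h1 := hp _ (h y hy)
  rw [eval_conj', map_eq_zero_iff σ σ.injective] at h1
  exact h1

/-- A closed set is defined over any field containing suitable finitely many numbers. -/
theorem exists_fod [Finite ι] (S : Set (ι → ℂ)) (hS : ZClosed S) :
    ∃ F : Set ℂ, F.Countable ∧ ∀ K : Subfield ℂ, F ⊆ K → DefOver K S := by
  classical
  obtain ⟨G, hG⟩ := (isNoetherianRing_iff_ideal_fg (MvPolynomial ι ℂ)).1 inferInstance
    (vanishingIdeal ℂ S)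
  refine ⟨⋃ p ∈ G, ((p.coeffs : Finset ℂ) : Set ℂ), ?_, fun K hK => ?_⟩
  · exact (G.countable_toSet).biUnion fun p _ => Finset.countable_toSet _
  · unfold DefOver
    refine Set.Subset.antisymm ?_ (zeroLocus_vanishingIdeal_le S)
    intro x hx
    rw [mem_zeroLocus_iff] at hx
    rw [hS.mem_iff]
    intro p hp
    have hpI : p ∈ Ideal.span (G : Set (MvPolynomial ι ℂ)) := by
      have : p ∈ vanishingIdeal ℂ S := mem_vI.2 hp
      rw [← hG] at this
      exact this
    refine Submodule.span_induction (p := fun p _ => eval x p = 0) ?_ ?_ ?_ ?_ hpI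
    · intro g hg
      have hgr : g ∈ Set.range (MvPolynomial.map (algebraMap K ℂ) : MvPolynomial ι K →+* _) := by
        rw [MvPolynomial.mem_range_map_iff_coeffs_subset]
        intro a ha
        have haK : a ∈ K := hK (Set.mem_biUnion hg ha)
        exact ⟨⟨a, haK⟩, rfl⟩
      obtain ⟨g₀, hg₀⟩ := hgr
      have h1 : g₀ ∈ vanishingIdeal K S := by
        rw [mem_vanishingIdeal_iff]
        intro y hy
        rw [aeval_eq_eval_map, hg₀]
        have : g ∈ vanishingIdeal ℂ S := by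
          rw [← hG]
          exact Ideal.subset_span hg
        exact mem_vI.1 this y hy
      have h2 := hx g₀ h1
      rwa [aeval_eq_eval_map, hg₀] at h2
    · exact map_zero _
    · intro a b _ _ ha hb
      rw [map_add, ha, hb, add_zero]
    · intro a b _ hb
      rw [smul_eq_mul, map_mul, hb, mul_zero]

theorem prime_down {k : Type} [Field k] [Algebra k ℂ] {S : Set (ι → ℂ)}
    (h : (vanishingIdeal ℂ S).IsPrime) : (vanishingIdeal k S).IsPrime := by
  have h1 : vanishingIdeal k S = Ideal.comap (MvPolynomial.map (algebraMap k ℂ))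
      (vanishingIdeal ℂ S) := by
    ext p
    rw [Ideal.mem_comap, mem_vI, mem_vanishingIdeal_iff]
    refine forall₂_congr fun x _ => ?_
    rw [aeval_eq_eval_map]
  rw [h1]
  exact Ideal.comap_isPrime _ _

end basic

theorem tangent_conj {m : ℕ} {X : Set (Fin m → ℂ)} (σ : ℂ ≃+* ℂ)
    (h : ∀ x ∈ X, (fun i => σ (x i)) ∈ X) {v w : Fin m → ℂ} (hw : w ∈ tangentSpace X v) :
    (fun i => σ (w i)) ∈ tangentSpace X (fun i => σ (v i)) := by
  intro p hp
  have hq : MvPolynomial.map (σ.symm : ℂ →+* ℂ) p ∈ vanishingIdeal ℂ X := by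
    rw [mem_vI] at hp ⊢
    intro y hy
    have h1 := hp _ (h y hy)
    rw [eval_conj', map_eq_zero_iff σ σ.injective] at h1
    exact h1
  have h2 := hw _ hq
  have h3 := congrArg σ h2
  rw [map_zero, map_sum] at h3
  rw [← h3]
  refine Finset.sum_congr rfl fun i _ => ?_
  rw [map_mul, eval_conj', MvPolynomial.pderiv_map]

section curves

variable {N d : ℕ}

theorem dps_eq (c : Coef N d) (s t : ℂ) (i : Fin (N + 1)) :
    dps c s t i = ∑ j : Fin (d + 1), c (i, j) * (((d - (j : ℕ) : ℕ) : ℂ) *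
      s ^ (d - (j : ℕ) - 1)) * t ^ (j : ℕ) := by
  unfold dps pt
  rw [deriv_fun_sum]
  · refine Finset.sum_congr rfl fun j _ => ?_
    rw [deriv_mul_const, deriv_const_mul, deriv_pow_field]
    · exact differentiableAt_pow _
    · exact (differentiableAt_pow _).const_mul _
  · intro j _
    exact ((differentiableAt_pow _).const_mul _).mul_const _

theorem dpt_eq (c : Coef N d) (s t : ℂ) (i : Fin (N + 1)) :
    dpt c s t i = ∑ j : Fin (d + 1), c (i, j) * s ^ (d - (j : ℕ)) *
      (((j : ℕ) : ℂ) * t ^ ((j : ℕ) - 1)) := by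
  unfold dpt pt
  rw [deriv_fun_sum]
  · refine Finset.sum_congr rfl fun j _ => ?_
    rw [deriv_const_mul, deriv_pow_field]
    exact differentiableAt_pow _
  · intro j _
    exact (differentiableAt_pow _).const_mul _

variable (σ : ℂ ≃+* ℂ)

theorem pt_conj (c : Coef N d) (s t : ℂ) (i : Fin (N + 1)) :
    pt (fun l => σ (c l)) (σ s) (σ t) i = σ (pt c s t i) := by
  simp [pt]

theorem dps_conj (c : Coef N d) (s t : ℂ) (i : Fin (N + 1)) :
    dps (fun l => σ (c l)) (σ s) (σ t) i = σ (dps c s t i) := by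
  rw [dps_eq, dps_eq]
  simp

theorem dpt_conj (c : Coef N d) (s t : ℂ) (i : Fin (N + 1)) :
    dpt (fun l => σ (c l)) (σ s) (σ t) i = σ (dpt c s t i) := by
  rw [dpt_eq, dpt_eq]
  simp

theorem smoothAt_conj {c : Coef N d} {s t : ℂ} (h : SmoothAt c s t) :
    SmoothAt (fun l => σ (c l)) (σ s) (σ t) := by
  refine ⟨?_, ?_, ?_⟩
  · intro h0
    apply h.ne
    rw [Prod.mk.injEq] at h0 ⊢
    exact ⟨(map_eq_zero_iff σ σ.injective).1 h0.1, (map_eq_zero_iff σ σ.injective).1 h0.2⟩
  · have h1 := h.immersive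
    rw [LinearIndependent.pair_iff] at h1 ⊢
    intro a b hab
    have h2 := h1 (σ.symm a) (σ.symm b) (by
      funext i
      have h3 := congrFun hab i
      rw [Pi.add_apply, Pi.smul_apply, Pi.smul_apply, dps_conj, dpt_conj] at h3
      have h4 := congrArg σ.symm h3
      simpa using h4)
    exact ⟨(map_eq_zero_iff σ.symm σ.symm.injective).1 h2.1,
      (map_eq_zero_iff σ.symm σ.symm.injective).1 h2.2⟩
  · rintro s' t' hne ⟨a, ha⟩
    have h2 := h.unique (σ.symm s') (σ.symm t') (by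
      intro h0
      apply hne
      rw [Prod.mk.injEq] at h0 ⊢
      exact ⟨(map_eq_zero_iff σ.symm σ.symm.injective).1 h0.1,
        (map_eq_zero_iff σ.symm σ.symm.injective).1 h0.2⟩) ⟨σ.symm a, by
        funext i
        have h3 := congrFun ha i
        rw [Pi.smul_apply, pt_conj] at h3
        have h5 : pt (fun l => σ (c l)) (σ (σ.symm s')) (σ (σ.symm t')) i =
            σ (pt c (σ.symm s') (σ.symm t') i) := pt_conj σ c _ _ i
        rw [σ.apply_symm_apply, σ.apply_symm_apply, h3] at h5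
        have h4 := congrArg σ.symm h5
        rw [σ.symm_apply_apply] at h4
        rw [← h4]
        simp⟩
    have h6 := congrArg σ h2
    simpa using h6

theorem tangents_conj {H : Set (Coef N d)} (hH : ∀ c ∈ H, (fun l => σ (c l)) ∈ H)
    {v w : Fin (N + 1) → ℂ} (hw : w ∈ tangents H v) :
    (fun i => σ (w i)) ∈ tangents H (fun i => σ (v i)) := by
  obtain ⟨c, hc, s, t, hst, rfl, a, b, rfl⟩ := hw
  refine ⟨fun l => σ (c l), hH c hc, σ s, σ t, smoothAt_conj σ hst, ?_, σ a, σ b, ?_⟩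
  · funext i
    exact pt_conj σ c s t i
  · funext i
    simp only [Pi.add_apply, Pi.smul_apply, smul_eq_mul, map_add, map_mul, dps_conj, dpt_conj]

end curves

end Pool.Agent.Helper48.VMRT
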