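import Mathlib
import Pool.Agent.Helper48.VMRT.Galois

/-!
The Galois argument on the components.
-/

set_option autoImplicit false

namespace Pool.Agent.Helper48.VMRT

open MvPolynomial Cardinal

/-- Pulling back polynomials along a linear map. -/
noncomputable def compLin {n m : ℕ} (a : (Fin n → ℂ) →ₗ[ℂ] (Fin m → ℂ))
    (p : MvPolynomial (Fin m) ℂ) : MvPolynomial (Fin n) ℂ :=
  bind₁ (fun i => ∑ j, C (a (Pi.single j 1) i) * X j) p

theorem eval_compLin {n m : ℕ} (a : (Fin n → ℂ) →ₗ[ℂ] (Fin m → ℂ))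
    (p : MvPolynomial (Fin m) ℂ) (z : Fin n → ℂ) : eval z (compLin a p) = eval (a z) p := by
  have h : ∀ i, eval z (∑ j, C (a (Pi.single j 1) i) * X j) = a z i := by
    intro i
    rw [map_sum]
    have hz : z = ∑ j, z j • (Pi.single j (1 : ℂ) : Fin n → ℂ) := by
      funext l
      rw [Finset.sum_apply]
      simp [Pi.single_apply]
    conv_rhs => rw [hz, map_sum, Finset.sum_apply]
    refine Finset.sum_congr rfl fun j _ => ?_
    rw [map_mul, eval_C, eval_X, map_smul, Pi.smul_apply, smul_eq_mul, mul_comm]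
  unfold compLin
  rw [show (eval z) (bind₁ (fun i => ∑ j, C (a (Pi.single j 1) i) * X j) p) =
    eval (fun i => eval z (∑ j, C (a (Pi.single j 1) i) * X j)) p from eval₂Hom_bind₁ _ _ _ _]
  rw [show (fun i => eval z (∑ j, C (a (Pi.single j 1) i) * X j)) = a z from funext h]

/-- An irreducible set covered by finitely many sets, each separated from its exterior points by
polynomials, is contained in one of them. -/
theorem irr_cover {n : ℕ} {ι : Type} [Finite ι] {S : Set (Fin n → ℂ)}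
    (hS : (vanishingIdeal ℂ S).IsPrime) (F : ι → Set (Fin n → ℂ))
    (hF : ∀ i, ∀ x, x ∉ F i → ∃ p : MvPolynomial (Fin n) ℂ, (∀ y ∈ F i, eval y p = 0) ∧
      eval x p ≠ 0) (h : S ⊆ ⋃ i, F i) : ∃ i, S ⊆ F i := by
  classical
  cases nonempty_fintype ι
  by_contra hcon
  push Not at hcon
  have h1 : ∀ i, ∃ p : MvPolynomial (Fin n) ℂ, (∀ y ∈ F i, eval y p = 0) ∧
      p ∉ vanishingIdeal ℂ S := by
    intro i
    obtain ⟨x, hxS, hxF⟩ := Set.not_subset.1 (hcon i)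
    obtain ⟨p, hp, hpx⟩ := hF i x hxF
    refine ⟨p, hp, fun hm => hpx (mem_vI.1 hm x hxS)⟩
  choose p hp hpS using h1
  have h2 : ∏ i, p i ∈ vanishingIdeal ℂ S := by
    rw [mem_vI]
    intro x hx
    obtain ⟨i, hi⟩ := Set.mem_iUnion.1 (h hx)
    rw [map_prod]
    exact Finset.prod_eq_zero (Finset.mem_univ i) (hp i x hi)
  obtain ⟨i, _, hi⟩ := (hS.prod_mem_iff).1 h2
  exact hpS i hi

theorem ZClosed.sep {ι : Type} {S : Set (ι → ℂ)} (hS : ZClosed S) {x : ι → ℂ} (hx : x ∉ S) :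
    ∃ p : MvPolynomial ι ℂ, (∀ y ∈ S, eval y p = 0) ∧ eval x p ≠ 0 := by
  rw [hS.mem_iff] at hx
  push Not at hx
  exact hx

theorem core {L : Type} [Field L] [Countable L] [Algebra L ℂ] {n m : ℕ} {v : Fin m → ℂ}
    (hv : v ≠ 0) (hvL : ∀ σ : ℂ ≃ₐ[L] ℂ, (fun i => σ (v i)) = v)
    (T : Submodule ℂ (Fin m → ℂ)) (hT : ∀ σ : ℂ ≃ₐ[L] ℂ, ∀ w ∈ T, (fun i => σ (w i)) ∈ T)
    (g : (Fin n → ℂ) →ₗ[ℂ] (Fin m → ℂ)) (hg : Function.Injective g)
    (hg1 : LinearMap.range g ⊓ Submodule.span ℂ {v} = ⊥)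
    (hg2 : LinearMap.range g ⊔ Submodule.span ℂ {v} = T)
    {ι : Type} [Finite ι] (Z : ι → Set (Fin n → ℂ)) (hZ : IsComponents Z)
    (hZσ : ∀ σ : ℂ ≃ₐ[L] ℂ, ∀ i, ∀ x ∈ Z i, (fun j => σ (x j)) ∈ Z i)
    (Cc : Set (Fin m → ℂ)) (hC : Cc = {u | ∃ z ∈ ⋃ i, Z i, ∃ a : ℂ, u = g z + a • v})
    (hCσ : ∀ σ : ℂ ≃ₐ[L] ℂ, ∀ x ∈ Cc, (fun i => σ (x i)) ∈ Cc)
    (w : Fin m → ℂ) (hw : w ∈ Cc)
    (hgen : ∀ p : MvPolynomial (Fin m) L, aeval w p = 0 → ∀ u ∈ Cc, aeval u p = 0) (i j : ι) :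
    ∃ a : (Fin n → ℂ) ≃ₗ[ℂ] (Fin n → ℂ), a '' (⋃ i, Z i) = (⋃ i, Z i) ∧ a '' Z i = Z j := by
  classical
  -- a retraction
  let G : (Fin n → ℂ) × ℂ →ₗ[ℂ] (Fin m → ℂ) :=
    LinearMap.coprod g (LinearMap.toSpanSingleton ℂ _ v)
  have hG : ∀ z a, G (z, a) = g z + a • v := fun z a => by simp [G]
  have hmem0 : ∀ z (a : ℂ), g z = a • v → z = 0 ∧ a = 0 := by
    intro z a h
    have h1 : g z ∈ LinearMap.range g ⊓ Submodule.span ℂ {v} :=
      ⟨⟨z, rfl⟩, by rw [h]; exact Submodule.smul_mem _ _ (Submodule.mem_span_singleton_self v)⟩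
    rw [hg1, Submodule.mem_bot] at h1
    constructor
    · exact hg (by rw [h1, map_zero])
    · rw [h1] at h
      rcases smul_eq_zero.1 h.symm with h | h
      · exact h
      · exact absurd h hv
  have hGinj : LinearMap.ker G = ⊥ := by
    rw [LinearMap.ker_eq_bot']
    rintro ⟨z, a⟩ h
    rw [hG] at h
    obtain ⟨h1, h2⟩ := hmem0 z (-a) (by rw [neg_smul]; exact eq_neg_of_add_eq_zero_left h)
    rw [h1, neg_eq_zero.1 h2]
    rfl
  obtain ⟨R, hR⟩ := LinearMap.exists_leftInverse_of_injective G hGinj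
  let r : (Fin m → ℂ) →ₗ[ℂ] (Fin n → ℂ) := (LinearMap.fst ℂ _ _).comp R
  have hr : ∀ z (a : ℂ), r (g z + a • v) = z := by
    intro z a
    have h1 := LinearMap.congr_fun hR (z, a)
    rw [LinearMap.comp_apply, hG] at h1
    change (R (g z + a • v)).1 = z
    rw [h1]
    rfl
  have hr' : ∀ z, r (g z) = z := by
    intro z
    have := hr z 0
    simpa using this
  have hT' : ∀ u ∈ T, ∃ z, ∃ a : ℂ, u = g z + a • v := by
    intro u hu
    rw [← hg2, Submodule.mem_sup] at hu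
    obtain ⟨y, ⟨z, rfl⟩, y', hy', rfl⟩ := hu
    obtain ⟨a, rfl⟩ := Submodule.mem_span_singleton.1 hy'
    exact ⟨z, a, rfl⟩
  have hTg : ∀ z, g z ∈ T := by
    intro z
    rw [← hg2]
    exact Submodule.mem_sup_left ⟨z, rfl⟩
  -- the action on vectors
  let act : (ℂ ≃ₐ[L] ℂ) → ∀ {l : ℕ}, (Fin l → ℂ) → (Fin l → ℂ) := fun σ _ x i => σ (x i)
  have act_symm : ∀ (σ : ℂ ≃ₐ[L] ℂ) {l : ℕ} (x : Fin l → ℂ), act σ (act σ.symm x) = x := by
    intro σ l x
    funext i
    exact σ.apply_symm_apply (x i)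
  have symm_act : ∀ (σ : ℂ ≃ₐ[L] ℂ) {l : ℕ} (x : Fin l → ℂ), act σ.symm (act σ x) = x := by
    intro σ l x
    funext i
    exact σ.symm_apply_apply (x i)
  have act_add : ∀ (σ : ℂ ≃ₐ[L] ℂ) {l : ℕ} (x y : Fin l → ℂ),
      act σ (x + y) = act σ x + act σ y := by
    intro σ l x y
    funext i
    exact map_add σ (x i) (y i)
  have act_smul : ∀ (σ : ℂ ≃ₐ[L] ℂ) {l : ℕ} (a : ℂ) (x : Fin l → ℂ),
      act σ (a • x) = σ a • act σ x := by
    intro σ l a x
    funext i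
    exact map_mul σ a (x i)
  have act_zero : ∀ (σ : ℂ ≃ₐ[L] ℂ) {l : ℕ}, act σ (0 : Fin l → ℂ) = 0 := by
    intro σ l
    funext i
    exact map_zero σ
  have actv : ∀ σ : ℂ ≃ₐ[L] ℂ, act σ v = v := hvL
  -- the linear maps a_σ
  let A : (ℂ ≃ₐ[L] ℂ) → ((Fin n → ℂ) →ₗ[ℂ] (Fin n → ℂ)) := fun σ =>
    { toFun := fun z => r (act σ (g (act σ.symm z)))
      map_add' := fun x y => by rw [act_add, map_add, act_add, map_add]
      map_smul' := fun a x => by
        rw [act_smul, map_smul, act_smul, map_smul, AlgEquiv.apply_symm_apply]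
        rfl }
  have hA : ∀ σ z, ∃ a : ℂ, act σ (g (act σ.symm z)) = g (A σ z) + a • v := by
    intro σ z
    obtain ⟨z', a, h⟩ := hT' _ (hT σ _ (hTg (act σ.symm z)))
    refine ⟨a, ?_⟩
    have h1 : A σ z = z' := by
      change r (act σ (g (act σ.symm z))) = z'
      rw [show act σ (g (act σ.symm z)) = g z' + a • v from h, hr]
    rw [h1]
    exact h
  have hAinj : ∀ σ, Function.Injective (A σ) := by
    intro σ
    rw [← LinearMap.ker_eq_bot, LinearMap.ker_eq_bot']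
    intro z hz
    obtain ⟨a, ha⟩ := hA σ z
    rw [hz, map_zero, zero_add] at ha
    have h1 := congrArg (act σ.symm) ha
    rw [symm_act, act_smul, actv] at h1
    obtain ⟨h2, -⟩ := hmem0 _ _ h1
    have h3 := congrArg (act σ) h2
    rw [act_symm, act_zero] at h3
    exact h3
  -- the sets D_i
  let D : ι → Set (Fin m → ℂ) := fun i => {u | ∃ z ∈ Z i, ∃ a : ℂ, u = g z + a • v}
  have hDr : ∀ i u, u ∈ D i → r u ∈ Z i := by
    rintro i u ⟨z, hz, a, rfl⟩
    rw [hr]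
    exact hz
  have hDg : ∀ i z (a : ℂ), g z + a • v ∈ D i ↔ z ∈ Z i := by
    intro i z a
    constructor
    · intro h
      have := hDr i _ h
      rwa [hr] at this
    · exact fun h => ⟨z, h, a, rfl⟩
  have hCD : ∀ u, u ∈ Cc ↔ ∃ i, u ∈ D i := by
    intro u
    rw [hC]
    constructor
    · rintro ⟨z, hz, a, rfl⟩
      obtain ⟨i, hi⟩ := Set.mem_iUnion.1 hz
      exact ⟨i, z, hi, a, rfl⟩
    · rintro ⟨i, z, hi, a, rfl⟩
      exact ⟨z, Set.mem_iUnion.2 ⟨i, hi⟩, a, rfl⟩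
  have hAZ : ∀ σ i, ∃ j, ∀ z ∈ Z i, A σ z ∈ Z j := by
    intro σ i
    have h1 : Z i ⊆ ⋃ j, (A σ) ⁻¹' (Z j) := by
      intro z hz
      have h2 : g (act σ.symm z) + (0 : ℂ) • v ∈ Cc := by
        rw [hCD]
        exact ⟨i, (hDg i _ _).2 (hZσ σ.symm i z hz)⟩
      rw [zero_smul, add_zero] at h2
      have h3 : act σ (g (act σ.symm z)) ∈ Cc := hCσ σ _ h2
      obtain ⟨j, hj⟩ := (hCD _).1 h3
      rw [Set.mem_iUnion]
      exact ⟨j, hDr j _ hj⟩
    obtain ⟨j, hj⟩ := irr_cover (hZ.irred i) (fun j => (A σ) ⁻¹' (Z j)) (by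
      intro j x hx
      obtain ⟨p, hp, hpx⟩ := (hZ.closed j).sep (show A σ x ∉ Z j from hx)
      refine ⟨compLin (A σ) p, fun y hy => ?_, ?_⟩
      · rw [eval_compLin]
        exact hp _ hy
      · rw [eval_compLin]
        exact hpx) h1
    exact ⟨j, fun z hz => hj hz⟩
  have hAD : ∀ σ i, ∃ j, ∀ u ∈ D i, act σ u ∈ D j := by
    intro σ i
    obtain ⟨j, hj⟩ := hAZ σ i
    refine ⟨j, ?_⟩
    rintro u ⟨z, hz, a, rfl⟩
    obtain ⟨b, hb⟩ := hA σ (act σ z)
    rw [symm_act] at hb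
    rw [act_add, act_smul, actv, hb, add_assoc, ← add_smul, hDg]
    exact hj _ (hZσ σ i z hz)
  have hDD : ∀ i j, D i ⊆ D j → i = j := by
    intro i j h
    apply hZ.irredundant
    intro z hz
    have := h ((hDg i z 0).2 hz)
    rwa [hDg] at this
  have hperm : ∀ σ i, ∃ j, ∀ u, u ∈ D i ↔ act σ u ∈ D j := by
    intro σ i
    obtain ⟨j, hj⟩ := hAD σ i
    obtain ⟨l, hl⟩ := hAD σ.symm j
    have hil : i = l := by
      apply hDD
      intro u hu
      have := hl _ (hj u hu)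
      rwa [symm_act] at this
    refine ⟨j, fun u => ⟨hj u, fun h => ?_⟩⟩
    have := hl _ h
    rw [symm_act] at this
    rw [hil]
    exact this
  -- from a permutation to a linear automorphism
  have hfin : ∀ σ i j, (∀ u, u ∈ D i ↔ act σ u ∈ D j) →
      ∃ a : (Fin n → ℂ) ≃ₗ[ℂ] (Fin n → ℂ), a '' (⋃ i, Z i) = (⋃ i, Z i) ∧ a '' Z i = Z j := by
    intro σ i j hij
    let a : (Fin n → ℂ) ≃ₗ[ℂ] (Fin n → ℂ) := LinearEquiv.ofInjectiveEndo (A σ) (hAinj σ)
    have ha : ∀ z, a z = A σ z := fun z => rfl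
    have key : ∀ i j, (∀ u, u ∈ D i ↔ act σ u ∈ D j) → a '' Z i = Z j := by
      intro i j hij
      ext y
      constructor
      · rintro ⟨z, hz, rfl⟩
        rw [ha]
        have h1 : g (act σ.symm z) ∈ D i := by
          have := (hDg i (act σ.symm z) 0).2 (hZσ σ.symm i z hz)
          rwa [zero_smul, add_zero] at this
        exact hDr _ _ ((hij _).1 h1)
      · intro hy
        obtain ⟨z, hz⟩ := a.surjective y
        refine ⟨z, ?_, hz⟩
        obtain ⟨b, hb⟩ := hA σ z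
        rw [← ha, hz] at hb
        have h1 : act σ (g (act σ.symm z)) ∈ D j := by
          rw [hb, hDg]
          exact hy
        have h2 := hDr _ _ ((hij _).2 h1)
        rw [hr'] at h2
        have h3 := hZσ σ i _ h2
        have h4 : act σ (act σ.symm z) ∈ Z i := h3
        rwa [act_symm] at h4
    refine ⟨a, ?_, key i j hij⟩
    ext y
    constructor
    · rintro ⟨z, hz, rfl⟩
      obtain ⟨l, hl⟩ := Set.mem_iUnion.1 hz
      obtain ⟨l', hl'⟩ := hperm σ l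
      rw [Set.mem_iUnion]
      refine ⟨l', ?_⟩
      rw [← key l l' hl']
      exact ⟨z, hl, rfl⟩
    · intro hy
      obtain ⟨l, hl⟩ := Set.mem_iUnion.1 hy
      obtain ⟨l', hl'⟩ := hperm σ.symm l
      have h5 : ∀ u, u ∈ D l' ↔ act σ u ∈ D l := by
        intro u
        have := hl' (act σ u)
        rw [symm_act] at this
        exact this.symm
      rw [← key l' l h5] at hl
      obtain ⟨z, hz, rfl⟩ := hl
      exact ⟨z, Set.mem_iUnion.2 ⟨l', hz⟩, rfl⟩
  -- transitivity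
  obtain ⟨i₀, hi₀⟩ := (hCD w).1 hw
  have htrans : ∀ j, ∃ σ : ℂ ≃ₐ[L] ℂ, ∀ u, u ∈ D i₀ ↔ act σ u ∈ D j := by
    let J : Set ι := {j | ∃ σ : ℂ ≃ₐ[L] ℂ, ∀ u, u ∈ D i₀ ↔ act σ u ∈ D j}
    let W : Submodule ℂ (MvPolynomial (Fin m) ℂ) :=
      { carrier := {p | ∀ j ∈ J, ∀ u ∈ D j, eval u p = 0}
        zero_mem' := fun j _ u _ => map_zero _
        add_mem' := fun {p q} hp hq j hj u hu => by
          rw [map_add, hp j hj u hu, hq j hj u hu, add_zero]
        smul_mem' := fun a p hp j hj u hu => by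
          rw [smul_eval, hp j hj u hu, mul_zero] }
    have hW : ∀ (σ : ℂ ≃ₐ[L] ℂ), ∀ q ∈ W, MvPolynomial.map (σ : ℂ →+* ℂ) q ∈ W := by
      intro σ q hq j hj u hu
      obtain ⟨τ, hτ⟩ := hj
      obtain ⟨l, hl⟩ := hperm σ.symm j
      have hlJ : l ∈ J := by
        refine ⟨τ.trans σ.symm, fun u => ?_⟩
        rw [hτ u, hl (act τ u)]
        rfl
      have h1 := hq l hlJ (act σ.symm u) ((hl u).1 hu)
      have h2 := eval_conj (σ : ℂ ≃+* ℂ) (act σ.symm u) q
      rw [h1, map_zero] at h2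
      have h3 : (fun i => (σ : ℂ ≃+* ℂ) (act σ.symm u i)) = u := act_symm σ u
      rw [h3] at h2
      exact h2
    have hWC : ∀ p ∈ W, ∀ u ∈ Cc, eval u p = 0 := by
      intro p hp u hu
      have h1 := descent W hW p hp
      refine Submodule.span_induction (p := fun p _ => eval u p = 0) ?_ ?_ ?_ ?_ h1
      · rintro q ⟨hqW, q₀, rfl⟩
        have h2 : aeval w q₀ = 0 := by
          rw [aeval_eq_eval_map]
          exact hqW i₀ ⟨AlgEquiv.refl, fun u => Iff.rfl⟩ w hi₀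
        have h3 := hgen q₀ h2 u hu
        rwa [aeval_eq_eval_map] at h3
      · exact map_zero _
      · intro a b _ _ ha hb
        rw [map_add, ha, hb, add_zero]
      · intro a b _ hb
        rw [smul_eval, hb, mul_zero]
    intro j
    by_contra hj
    -- `Z j` is contained in the union of the `Z l`, `l ∈ J`
    cases nonempty_fintype ι
    have h1 : Z j ⊆ ⋃ l : J, Z l := by
      intro z hz
      by_contra hcon
      have h2 : ∀ l : J, ∃ p : MvPolynomial (Fin n) ℂ, (∀ y ∈ Z l, eval y p = 0) ∧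
          eval z p ≠ 0 := by
        intro l
        refine (hZ.closed l).sep fun h => hcon ?_
        exact Set.mem_iUnion.2 ⟨l, h⟩
      choose p hp hpz using h2
      have h3 : compLin r (∏ l, p l) ∈ W := by
        intro l hl u hu
        rw [eval_compLin, map_prod]
        exact Finset.prod_eq_zero (Finset.mem_univ (⟨l, hl⟩ : J)) (hp ⟨l, hl⟩ _ (hDr l u hu))
      have h4 : g z + (0 : ℂ) • v ∈ Cc := by
        rw [hCD]
        exact ⟨j, (hDg j z 0).2 hz⟩
      have h5 := hWC _ h3 _ h4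
      rw [eval_compLin, hr, map_prod, Finset.prod_eq_zero_iff] at h5
      obtain ⟨l, _, hl⟩ := h5
      exact hpz l hl
    obtain ⟨l, hl⟩ := irr_cover (hZ.irred j) (fun l : J => Z l)
      (fun l x hx => (hZ.closed l).sep hx) h1
    have := hZ.irredundant j l hl
    exact hj (this ▸ l.2)
  obtain ⟨σ, hσ⟩ := htrans i
  obtain ⟨τ, hτ⟩ := htrans j
  refine hfin (σ.symm.trans τ) i j fun u => ?_
  have h1 := hσ (act σ.symm u)
  rw [act_symm] at h1
  rw [← h1, hτ]
  rfl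

end Pool.Agent.Helper48.VMRT
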