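import Mathlib
import Pool.Agent.Helper48.VMRT.Galois

/-!
A parametrized curve which is birational onto its image is generically an immersion; products with
affine spaces.
-/

set_option autoImplicit false

namespace Pool.Agent.Helper48.VMRT

section prime4

open MvPolynomial

variable {I κ : Type}

/-- The product of `H` with an affine space. -/
def prodAff (κ : Type) (H : Set (I → ℂ)) : Set (I ⊕ κ → ℂ) :=
  {x | (fun l => x (Sum.inl l)) ∈ H}

theorem prime_prodAff {H : Set (I → ℂ)} (hH : (vanishingIdeal ℂ H).IsPrime) :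
    (vanishingIdeal ℂ (prodAff κ H)).IsPrime := by
  have hne : H.Nonempty := by
    by_contra h
    rw [Set.not_nonempty_iff_eq_empty] at h
    apply hH.ne_top
    rw [h, vanishingIdeal_empty]
  obtain ⟨h₀, hh₀⟩ := hne
  refine ⟨?_, ?_⟩
  · rw [Ideal.ne_top_iff_one]
    intro h1
    have := mem_vI.1 h1 (Sum.elim h₀ (fun _ => 0)) hh₀
    simp at this
  · intro p q hpq
    by_contra hcon
    push Not at hcon
    obtain ⟨hp, hq⟩ := hcon
    rw [mem_vI] at hp hq
    push Not at hp hq
    obtain ⟨x1, hx1, hp1⟩ := hp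
    obtain ⟨x2, hx2, hq2⟩ := hq
    -- substitution of the second group of variables
    let sub1 : (κ → ℂ) → MvPolynomial (I ⊕ κ) ℂ → MvPolynomial I ℂ :=
      fun u p => bind₁ (Sum.elim X (fun j => C (u j))) p
    let sub2 : (I → ℂ) → MvPolynomial (I ⊕ κ) ℂ → MvPolynomial κ ℂ :=
      fun h p => bind₁ (Sum.elim (fun i => C (h i)) X) p
    have hs1 : ∀ u p h, eval h (sub1 u p) = eval (Sum.elim h u) p := by
      intro u p h
      rw [show eval h (sub1 u p) = eval (fun i => eval h
        ((Sum.elim X (fun j => C (u j)) : I ⊕ κ → MvPolynomial I ℂ) i)) p from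
          eval₂Hom_bind₁ _ _ _ _]
      congr 2
      funext i
      rcases i with i | i <;> simp
    have hs2 : ∀ h p u, eval u (sub2 h p) = eval (Sum.elim h u) p := by
      intro h p u
      rw [show eval u (sub2 h p) = eval (fun i => eval u
        ((Sum.elim (fun i => C (h i)) X : I ⊕ κ → MvPolynomial κ ℂ) i)) p from
          eval₂Hom_bind₁ _ _ _ _]
      congr 2
      funext i
      rcases i with i | i <;> simp
    have e1 : Sum.elim (fun l => x1 (Sum.inl l)) (fun l => x1 (Sum.inr l)) = x1 := by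
      funext i
      rcases i with i | i <;> rfl
    have e2 : Sum.elim (fun l => x2 (Sum.inl l)) (fun l => x2 (Sum.inr l)) = x2 := by
      funext i
      rcases i with i | i <;> rfl
    have hP : sub1 (fun l => x1 (Sum.inr l)) p ∉ vanishingIdeal ℂ H := by
      intro hm
      have := mem_vI.1 hm _ hx1
      rw [hs1, e1] at this
      exact hp1 this
    have hQ : sub1 (fun l => x2 (Sum.inr l)) q ∉ vanishingIdeal ℂ H := by
      intro hm
      have := mem_vI.1 hm _ hx2
      rw [hs1, e2] at this
      exact hq2 this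
    have hPQ : sub1 (fun l => x1 (Sum.inr l)) p * sub1 (fun l => x2 (Sum.inr l)) q ∉
        vanishingIdeal ℂ H := by
      intro hm
      rcases hH.mem_or_mem hm with h | h
      · exact hP h
      · exact hQ h
    rw [mem_vI] at hPQ
    push Not at hPQ
    obtain ⟨h, hh, hne⟩ := hPQ
    rw [map_mul] at hne
    have hP2 : sub2 h p ≠ 0 := by
      intro h0
      apply left_ne_zero_of_mul hne
      rw [hs1, ← hs2, h0, map_zero]
    have hQ2 : sub2 h q ≠ 0 := by
      intro h0
      apply right_ne_zero_of_mul hne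
      rw [hs1, ← hs2, h0, map_zero]
    have hPQ2 : sub2 h p * sub2 h q ≠ 0 := mul_ne_zero hP2 hQ2
    apply hPQ2
    refine MvPolynomial.funext fun u => ?_
    rw [map_mul, hs2, hs2, map_zero, ← map_mul]
    exact mem_vI.1 hpq _ hh

end prime4

section wronskian

open Polynomial

theorem wronskian_zero (φ ψ : ℂ[X]) (h : ψ * derivative φ = derivative ψ * φ) (z₀ : ℂ)
    (h1 : φ.eval z₀ ≠ 0) (h2 : ψ.eval z₀ = 0) : ψ = 0 := by
  by_contra hψ
  have hφ : φ ≠ 0 := by
    rintro rfl
    simp at h1
  have hm : 1 ≤ rootMultiplicity z₀ ψ := (rootMultiplicity_pos hψ).2 h2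
  have hφ0 : rootMultiplicity z₀ φ = 0 := rootMultiplicity_eq_zero h1
  by_cases hd : derivative φ = 0
  · rw [hd, mul_zero] at h
    rcases mul_eq_zero.1 h.symm with h3 | h3
    · obtain ⟨a, ha⟩ : ∃ a, ψ = C a :=
        ⟨_, eq_C_of_natDegree_eq_zero ((derivative_eq_zero.1 h3))⟩
      rw [ha, eval_C] at h2
      rw [ha, h2, C_0] at hψ
      exact hψ rfl
    · exact hφ h3
  · have hψ' : derivative ψ ≠ 0 := by
      intro h3
      rw [h3, zero_mul] at h
      rcases mul_eq_zero.1 h with h4 | h4
      · exact hψ h4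
      · exact hd h4
    have h3 := congrArg (rootMultiplicity z₀) h
    rw [rootMultiplicity_mul (mul_ne_zero hψ hd), rootMultiplicity_mul (mul_ne_zero hψ' hφ),
      hφ0, derivative_rootMultiplicity_of_root h2] at h3
    omega

variable {N d : ℕ}

theorem exists_minor {X : Set (Fin (N + 1) → ℂ)} {c : Coef N d} (hc : IsCurve X c) :
    ∃ s t : ℂ, ∃ i j, dps c s t i * dpt c s t j - dps c s t j * dpt c s t i ≠ 0 := by
  by_contra hcon
  push Not at hcon
  let φ : Fin (N + 1) → ℂ[X] := fun i => ∑ j : Fin (d + 1), C (c (i, j)) * Polynomial.X ^ (j : ℕ)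
  have hφ : ∀ i z, (φ i).eval z = pt c 1 z i := by
    intro i z
    simp only [φ, pt]
    rw [eval_finsetSum]
    refine Finset.sum_congr rfl fun j _ => ?_
    simp
  have hφ' : ∀ i z, (derivative (φ i)).eval z = dpt c 1 z i := by
    intro i z
    rw [dpt_eq]
    simp only [φ]
    rw [derivative_sum, eval_finsetSum]
    refine Finset.sum_congr rfl fun j _ => ?_
    rw [derivative_C_mul, derivative_X_pow]
    simp
  have hdps : ∀ i z, dps c 1 z i = d * (φ i).eval z - z * (derivative (φ i)).eval z := by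
    intro i z
    rw [hφ, hφ', dps_eq, dpt_eq]
    simp only [pt]
    rw [Finset.mul_sum, Finset.mul_sum, ← Finset.sum_sub_distrib]
    refine Finset.sum_congr rfl fun j _ => ?_
    have hj : (j : ℕ) ≤ d := Nat.lt_succ_iff.1 j.2
    have h1 : ((d - (j : ℕ) : ℕ) : ℂ) = (d : ℂ) - (j : ℕ) := by
      rw [Nat.cast_sub hj]
    rw [h1]
    simp only [one_pow, mul_one]
    rcases Nat.eq_zero_or_pos (j : ℕ) with h0 | h0
    · rw [h0]
      simp
      ring
    · obtain ⟨l, hl⟩ : ∃ l, (j : ℕ) = l + 1 := ⟨(j : ℕ) - 1, by omega⟩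
      rw [hl]
      simp only [Nat.add_sub_cancel]
      push_cast
      ring
  -- the set of bad points is infinite as soon as the coordinates are proportional
  have hbad : ∀ (f : ℂ[X]) (b : Fin (N + 1) → ℂ), f ≠ 0 →
      (∀ i z, pt c 1 z i = f.eval z * b i) → False := by
    intro f b hf hb
    have hfin := hc.birational
    have hinf : {z : ℂ | f.eval z ≠ 0}.Infinite := by
      have h1 : {z : ℂ | f.eval z = 0}.Finite := by
        refine (f.roots.toFinset.finite_toSet).subset fun z hz => ?_
        rw [Finset.mem_coe, Multiset.mem_toFinset, mem_roots hf]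
        exact hz
      have : {z : ℂ | f.eval z ≠ 0} = {z : ℂ | f.eval z = 0}ᶜ := rfl
      rw [this]
      exact h1.infinite_compl
    refine hinf (hfin.subset fun z hz => ?_)
    obtain ⟨z2, hz2, hne⟩ := hinf.exists_notMem_finite (Set.finite_singleton z)
    refine ⟨1, z2, by simp, by simpa using hne, f.eval z2 / f.eval z, ?_⟩
    funext i
    rw [Pi.smul_apply, smul_eq_mul, hb, hb]
    have : f.eval z ≠ 0 := hz
    field_simp
  have hpt0 : pt c 1 0 ≠ 0 := hc.ne_zero 1 0 (by simp)
  obtain ⟨j₀, hj₀⟩ : ∃ j₀, pt c 1 0 j₀ ≠ 0 := by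
    by_contra h
    push Not at h
    exact hpt0 (funext h)
  have hφ0 : (φ j₀).eval 0 ≠ 0 := by rwa [hφ]
  by_cases hd : d = 0
  · refine hbad 1 (fun i => pt c 1 0 i) one_ne_zero fun i z => ?_
    subst hd
    simp [pt]
  · have hd' : (d : ℂ) ≠ 0 := Nat.cast_ne_zero.2 hd
    have hW : ∀ i, φ i * derivative (φ j₀) = derivative (φ i) * φ j₀ := by
      intro i
      refine Polynomial.funext fun z => ?_
      have h1 := hcon 1 z i j₀
      rw [hdps, hdps, ← hφ', ← hφ'] at h1
      rw [eval_mul, eval_mul]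
      have h2 : (d : ℂ) * ((φ i).eval z * (derivative (φ j₀)).eval z -
          (derivative (φ i)).eval z * (φ j₀).eval z) = 0 := by
        rw [← h1]
        ring
      rcases mul_eq_zero.1 h2 with h3 | h3
      · exact absurd h3 hd'
      · exact sub_eq_zero.1 h3
    refine hbad (φ j₀) (fun i => (φ i).eval 0 / (φ j₀).eval 0) ?_ fun i z => ?_
    · intro h
      rw [h] at hφ0
      simp at hφ0
    · have h3 := wronskian_zero (φ j₀) (φ i - C ((φ i).eval 0 / (φ j₀).eval 0) * φ j₀) (by
        rw [derivative_sub, derivative_C_mul, sub_mul, sub_mul, hW i]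
        ring) 0 hφ0 (by
        rw [eval_sub, eval_mul, eval_C]
        field_simp
        ring)
      have h4 := congrArg (Polynomial.eval z) (sub_eq_zero.1 h3)
      rw [← hφ, h4, eval_mul, eval_C, mul_comm]

/-- Homogeneity. -/
theorem pt_homog (c : Coef N d) (a s t : ℂ) : pt c (a * s) (a * t) = a ^ d • pt c s t := by
  funext i
  rw [Pi.smul_apply, smul_eq_mul]
  simp only [pt]
  rw [Finset.mul_sum]
  refine Finset.sum_congr rfl fun j _ => ?_
  have hj : (j : ℕ) ≤ d := Nat.lt_succ_iff.1 j.2
  rw [mul_pow, mul_pow]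
  have : a ^ d = a ^ (d - (j : ℕ)) * a ^ (j : ℕ) := by
    rw [← pow_add, Nat.sub_add_cancel hj]
  rw [this]
  ring

end wronskian

end Pool.Agent.Helper48.VMRT
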