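import Mathlib
import Pool.Agent.Helper48.VMRT.Core
import Pool.Agent.Helper48.VMRT.Curves

/-!
The generic member of a family of rational curves and the main theorem.
-/

set_option autoImplicit false

namespace Pool.Agent.Helper48.VMRT

open MvPolynomial Cardinal

section polys

variable {k : Type} [Field k] [Algebra k ℂ] {N d : ℕ}

/-- Index type of the variables `(c, s, t, a, b)`. -/
abbrev Var (N d : ℕ) : Type := (Fin (N + 1) × Fin (d + 1)) ⊕ Fin 4

/-- `pt` as a polynomial. -/
noncomputable def ptPoly (k : Type) [Field k] (i : Fin (N + 1)) : MvPolynomial (Var N d) k :=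
  ∑ j : Fin (d + 1), X (Sum.inl (i, j)) * X (Sum.inr 0) ^ (d - (j : ℕ)) *
    X (Sum.inr 1) ^ (j : ℕ)

noncomputable def dpsPoly (k : Type) [Field k] (i : Fin (N + 1)) : MvPolynomial (Var N d) k :=
  ∑ j : Fin (d + 1), X (Sum.inl (i, j)) * (((d - (j : ℕ) : ℕ) : MvPolynomial (Var N d) k) *
      X (Sum.inr 0) ^ (d - (j : ℕ) - 1)) * X (Sum.inr 1) ^ (j : ℕ)

noncomputable def dptPoly (k : Type) [Field k] (i : Fin (N + 1)) : MvPolynomial (Var N d) k :=
  ∑ j : Fin (d + 1), X (Sum.inl (i, j)) * X (Sum.inr 0) ^ (d - (j : ℕ)) *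
      (((j : ℕ) : MvPolynomial (Var N d) k) * X (Sum.inr 1) ^ ((j : ℕ) - 1))

theorem aeval_ptPoly (y : Var N d → ℂ) (i : Fin (N + 1)) :
    aeval y (ptPoly k i) = pt (fun l => y (Sum.inl l)) (y (Sum.inr 0)) (y (Sum.inr 1)) i := by
  unfold ptPoly pt
  simp

theorem aeval_dpsPoly (y : Var N d → ℂ) (i : Fin (N + 1)) :
    aeval y (dpsPoly k i) = dps (fun l => y (Sum.inl l)) (y (Sum.inr 0)) (y (Sum.inr 1)) i := by
  rw [dps_eq]
  unfold dpsPoly
  simp

theorem aeval_dptPoly (y : Var N d → ℂ) (i : Fin (N + 1)) :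
    aeval y (dptPoly k i) = dpt (fun l => y (Sum.inl l)) (y (Sum.inr 0)) (y (Sum.inr 1)) i := by
  rw [dpt_eq]
  unfold dptPoly
  simp

theorem aeval_bind {κ τ : Type} (f : κ → MvPolynomial τ k) (p : MvPolynomial κ k) (y : τ → ℂ) :
    aeval y (bind₁ f p) = aeval (fun i => aeval y (f i)) p := aeval_bind₁ _ _ _

end polys

/-- Extending a point of `Fin 4`-coordinates. -/
def four (s t a b : ℂ) : Fin 4 → ℂ := ![s, t, a, b]

theorem main {n N d : ℕ} {X : Set (Fin (N + 1) → ℂ)}
    {H : Set (Coef N d)} (hXc : ZClosed X) (hH : IsFamily X H) {ι : Type} [Finite ι]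
    (Z : ι → Set (Fin n → ℂ))
    (hZ : IsComponents Z) (hiso : Isotrivial X H (⋃ i, Z i)) (i j : ι) :
    ∃ a : (Fin n → ℂ) ≃ₗ[ℂ] (Fin n → ℂ), a '' (⋃ i, Z i) = (⋃ i, Z i) ∧ a '' Z i = Z j := by
  classical
  obtain ⟨B, hB, ⟨v₁, hv₁X, hv₁0, hv₁B⟩, hiso⟩ := hiso
  obtain ⟨A, B', hA, hB', hHAB⟩ := hH.locallyClosed
  obtain ⟨FX, hFX, hKX⟩ := exists_fod X hXc
  obtain ⟨FB, hFB, hKB⟩ := exists_fod B hB
  obtain ⟨FA, hFA, hKA⟩ := exists_fod A hA
  obtain ⟨FB', hFB', hKB'⟩ := exists_fod B' hB'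
  have hZf : ∀ i, ∃ F : Set ℂ, F.Countable ∧ ∀ K : Subfield ℂ, F ⊆ K → DefOver K (Z i) :=
    fun i => exists_fod (Z i) (hZ.closed i)
  choose FZ hFZ hKZ using hZf
  let F : Set ℂ := FX ∪ FB ∪ FA ∪ FB' ∪ ⋃ i, FZ i
  have hF : F.Countable := by
    refine ((((hFX.union hFB).union hFA).union hFB').union ?_)
    exact Set.countable_iUnion hFZ
  let K : Subfield ℂ := Subfield.closure F
  have hFK : F ⊆ K := Subfield.subset_closure
  have hKc : Countable K := by
    rw [← Cardinal.mk_le_aleph0_iff]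
    refine (Subfield.cardinalMk_closure_le_max F).trans ?_
    have := hF.le_aleph0
    simp [this]
  have dX : DefOver K X := hKX K fun a ha => hFK (Or.inl (Or.inl (Or.inl (Or.inl ha))))
  have dB : DefOver K B := hKB K fun a ha => hFK (Or.inl (Or.inl (Or.inl (Or.inr ha))))
  have dA : DefOver K A := hKA K fun a ha => hFK (Or.inl (Or.inl (Or.inr ha)))
  have dB' : DefOver K B' := hKB' K fun a ha => hFK (Or.inl (Or.inr ha))
  have dZ : ∀ i, DefOver K (Z i) := fun i => hKZ i K fun a ha =>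
    hFK (Or.inr (Set.mem_iUnion.2 ⟨i, ha⟩))
  -- the generic point
  have hP : (vanishingIdeal K (prodAff (Fin 4) H)).IsPrime := prime_down (prime_prodAff hH.irred)
  obtain ⟨x₀, hx₀⟩ := exists_generic (k := K) (vanishingIdeal K (prodAff (Fin 4) H)) hP
  have spe : ∀ q : MvPolynomial (Var N d) K, aeval x₀ q = 0 → ∀ y ∈ prodAff (Fin 4) H,
      aeval y q = 0 := fun q hq => (mem_vanishingIdeal_iff).1 ((hx₀ q).1 hq)
  have spe' : ∀ q : MvPolynomial (Var N d) K, (∀ y ∈ prodAff (Fin 4) H, aeval y q = 0) →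
      aeval x₀ q = 0 := fun q hq => (hx₀ q).2 ((mem_vanishingIdeal_iff).2 hq)
  set G : Coef N d := fun l => x₀ (Sum.inl l) with hG
  set s : ℂ := x₀ (Sum.inr 0) with hs
  set t : ℂ := x₀ (Sum.inr 1) with ht
  -- a point of the family through `v₁`
  have hne : (tangents H v₁).Nonempty := by
    by_contra hcon
    rw [Set.not_nonempty_iff_eq_empty] at hcon
    obtain ⟨g, -, -, -, hg⟩ := hiso v₁ hv₁X hv₁0 hv₁B
    obtain ⟨z, hz, -⟩ := hZ.exists_ne i
    have h1 : g z + (0 : ℂ) • v₁ ∈ vmrtCone H v₁ := by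
      rw [hg]
      exact ⟨z, Set.mem_iUnion.2 ⟨i, hz⟩, 0, rfl⟩
    unfold vmrtCone at h1
    rw [hcon, vanishingIdeal_empty, zeroLocus_top] at h1
    exact h1
  obtain ⟨-, c₁, hc₁, s₁, t₁, -, hv₁, -⟩ := hne
  have hy₁ : Sum.elim c₁ (four s₁ t₁ 0 0) ∈ prodAff (Fin 4) H := hc₁
  have hGA : G ∈ A := by
    have h1 : G ∈ zeroLocus ℂ (vanishingIdeal K A) := by
      rw [mem_zeroLocus_iff]
      intro p hp
      have h2 := spe' (rename Sum.inl p) (fun y hy => by
        rw [aeval_rename]
        have hy' : (fun l => y (Sum.inl l)) ∈ H := hy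
        rw [hHAB] at hy'
        exact (mem_vanishingIdeal_iff.1 hp) _ hy'.1)
      rw [aeval_rename] at h2
      exact h2
    rwa [show zeroLocus ℂ (vanishingIdeal K A) = A from dA] at h1
  have hGB : G ∉ B' := by
    have h1 : c₁ ∉ zeroLocus ℂ (vanishingIdeal K B') := by
      rw [show zeroLocus ℂ (vanishingIdeal K B') = B' from dB']
      rw [hHAB] at hc₁
      exact hc₁.2
    rw [mem_zeroLocus_iff] at h1
    push Not at h1
    obtain ⟨p, hp, hp1⟩ := h1
    intro hG'
    apply hp1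
    have h2 := spe (rename Sum.inl p) (by
      rw [aeval_rename]
      exact (mem_vanishingIdeal_iff.1 hp) _ hG') _ hy₁
    rw [aeval_rename] at h2
    exact h2
  have hGH : G ∈ H := by
    rw [hHAB]
    exact ⟨hGA, hGB⟩
  have hGc := hH.curve G hGH
  have hs0 : s ≠ 0 := by
    intro h0
    have h1 := spe (MvPolynomial.X (Sum.inr 0)) (by rw [aeval_X]; exact h0)
      (Sum.elim G (four 1 0 0 0)) hGH
    rw [aeval_X] at h1
    exact one_ne_zero h1
  set v : Fin (N + 1) → ℂ := pt G s t with hv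
  have hvX : v ∈ X := hGc.mem s t
  have hv0 : v ≠ 0 := hGc.ne_zero s t (fun h => hs0 (Prod.mk.inj h).1)
  have hvB : v ∉ B := by
    have h1 : v₁ ∉ zeroLocus ℂ (vanishingIdeal K B) := by
      rw [show zeroLocus ℂ (vanishingIdeal K B) = B from dB]
      exact hv₁B
    rw [mem_zeroLocus_iff] at h1
    push Not at h1
    obtain ⟨p, hp, hp1⟩ := h1
    intro hvB
    apply hp1
    have h2 := spe (bind₁ (ptPoly K) p) (by
      rw [aeval_bind]
      have : (fun i => aeval x₀ (ptPoly K i)) = v := by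
        funext i
        rw [aeval_ptPoly]
      rw [this]
      exact (mem_vanishingIdeal_iff.1 hp) _ hvB) _ hy₁
    rw [aeval_bind] at h2
    have : (fun i => aeval (Sum.elim c₁ (four s₁ t₁ 0 0)) (ptPoly K i)) = v₁ := by
      funext i
      rw [aeval_ptPoly, ← hv₁]
      rfl
    rwa [this] at h2
  -- smoothness of the generic member at the generic point
  have himm : LinearIndependent ℂ ![dps G s t, dpt G s t] := by
    obtain ⟨s', t', i', j', hmin⟩ := exists_minor hGc
    have h1 : dps G s t i' * dpt G s t j' - dps G s t j' * dpt G s t i' ≠ 0 := by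
      intro h0
      apply hmin
      have h2 := spe (dpsPoly K i' * dptPoly K j' - dpsPoly K j' * dptPoly K i') (by
        rw [map_sub, map_mul, map_mul, aeval_dpsPoly, aeval_dptPoly, aeval_dpsPoly, aeval_dptPoly]
        exact h0) (Sum.elim G (four s' t' 0 0)) hGH
      rw [map_sub, map_mul, map_mul, aeval_dpsPoly, aeval_dptPoly, aeval_dpsPoly,
        aeval_dptPoly] at h2
      exact h2
    rw [LinearIndependent.pair_iff]
    intro a b hab
    have hi := congrFun hab i'
    have hj := congrFun hab j'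
    simp only [Pi.add_apply, Pi.smul_apply, smul_eq_mul, Pi.zero_apply] at hi hj
    constructor
    · have : a * (dps G s t i' * dpt G s t j' - dps G s t j' * dpt G s t i') = 0 := by
        linear_combination (dpt G s t j') * hi - (dpt G s t i') * hj
      rcases mul_eq_zero.1 this with h | h
      · exact h
      · exact absurd h h1
    · have : b * (dps G s t i' * dpt G s t j' - dps G s t j' * dpt G s t i') = 0 := by
        linear_combination (dps G s t i') * hj - (dps G s t j') * hi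
      rcases mul_eq_zero.1 this with h | h
      · exact h
      · exact absurd h h1
  have hshift : ∀ m : ℤ, ∃ σ : ℂ ≃ₐ[K] ℂ, (∀ l, σ (G l) = G l) ∧ σ s = s ∧ σ t = t + m * s := by
    intro m
    let f : ℤ → Var N d → MvPolynomial (Var N d) K := fun m =>
      Sum.elim (fun l => MvPolynomial.X (Sum.inl l))
        ![MvPolynomial.X (Sum.inr 0), MvPolynomial.X (Sum.inr 1) + (m : MvPolynomial (Var N d) K) *
          MvPolynomial.X (Sum.inr 0), MvPolynomial.X (Sum.inr 2), MvPolynomial.X (Sum.inr 3)]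
    let T : ℤ → (Var N d → ℂ) → (Var N d → ℂ) := fun m y => fun i => aeval y (f m i)
    have hTH : ∀ m y, y ∈ prodAff (Fin 4) H → T m y ∈ prodAff (Fin 4) H := by
      intro m y hy
      have : (fun l => T m y (Sum.inl l)) = fun l => y (Sum.inl l) := by
        funext l
        simp [T, f]
      change (fun l => T m y (Sum.inl l)) ∈ H
      rw [this]
      exact hy
    have hTT : ∀ m y, T m (T (-m) y) = y := by
      intro m y
      funext i
      rcases i with l | i
      · simp [T, f]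
      · fin_cases i
        · simp [T, f]
        · simp [T, f]
        · simp [T, f]
        · simp [T, f]
    obtain ⟨σ, hσ⟩ := homog (k := K) x₀ (T m x₀) (fun p => by
      have h1 : aeval (T m x₀) p = aeval x₀ (bind₁ (f m) p) := (aeval_bind _ _ _).symm
      rw [h1]
      constructor
      · intro h
        refine spe' _ fun y hy => ?_
        rw [aeval_bind]
        exact spe _ h _ (hTH m y hy)
      · intro h
        refine spe' _ fun y hy => ?_
        have h2 := spe _ h _ (hTH (-m) y hy)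
        rw [aeval_bind] at h2
        have h3 := hTT m y
        rw [← h3]
        exact h2)
    refine ⟨σ, fun l => ?_, ?_, ?_⟩
    · rw [hG, hσ]
      simp [T, f]
    · rw [hs, hσ]
      simp [T, f]
    · rw [ht, hσ]
      simp [T, f, hs]
  have huniq : ∀ s' t' : ℂ, (s', t') ≠ (0, 0) → (∃ a : ℂ, pt G s' t' = a • pt G s t) →
      s * t' = t * s' := by
    rintro s' t' hne' ⟨a, ha⟩
    by_contra hcon
    set bad : Set ℂ := {z : ℂ | ∃ s t : ℂ, (s, t) ≠ (0, 0) ∧ t ≠ z * s ∧
      ∃ a : ℂ, pt G s t = a • pt G 1 z} with hbad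
    have hz : t / s ∈ bad := by
      refine ⟨s', t', hne', ?_, a * s ^ d, ?_⟩
      · intro h
        apply hcon
        rw [h]
        field_simp
      · rw [ha, mul_smul]
        congr 1
        rw [← pt_homog, mul_one, mul_div_cancel₀ _ hs0]
    have hall : ∀ m : ℤ, t / s + m ∈ bad := by
      intro m
      obtain ⟨σ, hσG, hσs, hσt⟩ := hshift m
      obtain ⟨s2, t2, hne2, hz2, b, hb⟩ := hz
      have hGG : (fun l => σ (G l)) = G := funext hσG
      have hσz : σ (t / s) = t / s + m := by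
        rw [map_div₀, hσs, hσt]
        field_simp
      refine ⟨σ s2, σ t2, ?_, ?_, σ b, ?_⟩
      · intro h0
        apply hne2
        rw [Prod.mk.injEq] at h0 ⊢
        exact ⟨(map_eq_zero_iff σ σ.injective).1 h0.1, (map_eq_zero_iff σ σ.injective).1 h0.2⟩
      · intro h0
        apply hz2
        rw [← hσz, ← map_mul] at h0
        exact σ.injective h0
      · funext i
        have h1 := pt_conj (σ : ℂ ≃+* ℂ) G s2 t2 i
        have h2 := pt_conj (σ : ℂ ≃+* ℂ) G 1 (t / s) i
        have h3 := congrFun hb i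
        rw [Pi.smul_apply, smul_eq_mul] at h3 ⊢
        have hGG' : (fun l => (σ : ℂ ≃+* ℂ) (G l)) = G := hGG
        rw [hGG'] at h1 h2
        rw [map_one] at h2
        have hσz' : (σ : ℂ ≃+* ℂ) (t / s) = t / s + m := hσz
        rw [hσz'] at h2
        change pt G ((σ : ℂ ≃+* ℂ) s2) ((σ : ℂ ≃+* ℂ) t2) i = (σ : ℂ ≃+* ℂ) b * pt G 1 (t / s + m) i
        rw [h1, h2, h3, map_mul]
    have hinf : (Set.range fun m : ℤ => t / s + (m : ℂ)).Infinite := by
      refine Set.infinite_range_of_injective fun m m' h => ?_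
      have : (m : ℂ) = m' := add_left_cancel h
      exact_mod_cast this
    refine hinf (hGc.birational.subset ?_)
    rintro z ⟨m, rfl⟩
    exact hall m
  have hsm : SmoothAt G s t := ⟨fun h => hs0 (Prod.mk.inj h).1, himm, huniq⟩
  set w : Fin (N + 1) → ℂ := x₀ (Sum.inr 2) • dps G s t + x₀ (Sum.inr 3) • dpt G s t with hw
  have hwt : w ∈ tangents H v := ⟨G, hGH, s, t, hsm, rfl, _, _, hw⟩
  -- the field `L = K(v)`
  let L : IntermediateField K ℂ := IntermediateField.adjoin K (Set.range v)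
  have hLc : Countable L := by
    rw [← Cardinal.mk_le_aleph0_iff]
    refine (IntermediateField.cardinalMk_adjoin_le (F := K) (Set.range v)).trans ?_
    have h1 : #(Set.range v) ≤ ℵ₀ := (Set.finite_range v).countable.le_aleph0
    have h2 : #K ≤ ℵ₀ := Cardinal.mk_le_aleph0
    simp
  obtain ⟨g, hg, hg1, hg2, hgC⟩ := hiso v hvX hv0 hvB
  have hfixv : ∀ σ : ℂ ≃ₐ[L] ℂ, (fun i => σ (v i)) = v := by
    intro σ
    funext i
    have h1 : v i ∈ L := IntermediateField.subset_adjoin K _ ⟨i, rfl⟩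
    exact σ.commutes ⟨v i, h1⟩
  have hXσ : ∀ σ : ℂ ≃ₐ[L] ℂ, ∀ x ∈ X, (fun i => (σ : ℂ ≃+* ℂ) (x i)) ∈ X :=
    fun σ x hx => dX.conj (AlgEquiv.restrictScalars K σ) hx
  have hHσ : ∀ σ : ℂ ≃ₐ[L] ℂ, ∀ c ∈ H, (fun i => (σ : ℂ ≃+* ℂ) (c i)) ∈ H := by
    intro σ c hc
    rw [hHAB] at hc ⊢
    refine ⟨dA.conj (AlgEquiv.restrictScalars K σ) hc.1, fun h => hc.2 ?_⟩
    have h1 := dB'.conj (AlgEquiv.restrictScalars K σ).symm h
    have h2 : (fun i => (AlgEquiv.restrictScalars K σ).symm
        ((fun i => (σ : ℂ ≃+* ℂ) (c i)) i)) = c := by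
      funext i
      exact σ.symm_apply_apply (c i)
    rwa [h2] at h1
  refine core (L := L) (v := v) hv0 hfixv (tangentSpace X v) ?_ g hg hg1 hg2 Z hZ ?_
    (vmrtCone H v) hgC ?_ w (subset_cl _ hwt) ?_ i j
  · intro σ u hu
    have h1 := tangent_conj (σ : ℂ ≃+* ℂ) (hXσ σ) hu
    have h2 : (fun i => (σ : ℂ ≃+* ℂ) (v i)) = v := hfixv σ
    rw [h2] at h1
    exact h1
  · intro σ i x hx
    exact (dZ i).conj (AlgEquiv.restrictScalars K σ) hx
  · intro σ x hx
    refine cl_conj (σ : ℂ ≃+* ℂ) (fun u hu => ?_) hx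
    have h1 := tangents_conj (σ : ℂ ≃+* ℂ) (hHσ σ) hu
    have h2 : (fun i => (σ : ℂ ≃+* ℂ) (v i)) = v := hfixv σ
    rw [h2] at h1
    exact h1
  · intro p hp
    obtain ⟨P, q, hq, hPq⟩ := clear (k := K) v p
    have key : ∀ u ∈ tangents H v, aeval u p = 0 := by
      rintro u ⟨c, hc, s', t', -, hcv, a', b', rfl⟩
      let Q : MvPolynomial (Var N d) K := bind₁ (Sum.elim (ptPoly K)
        (fun i => MvPolynomial.X (Sum.inr 2) * dpsPoly K i +
          MvPolynomial.X (Sum.inr 3) * dptPoly K i)) P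
      have hQ : ∀ y : Var N d → ℂ, aeval y Q = aeval (Sum.elim
          (pt (fun l => y (Sum.inl l)) (y (Sum.inr 0)) (y (Sum.inr 1)))
          (y (Sum.inr 2) • dps (fun l => y (Sum.inl l)) (y (Sum.inr 0)) (y (Sum.inr 1)) +
            y (Sum.inr 3) • dpt (fun l => y (Sum.inl l)) (y (Sum.inr 0)) (y (Sum.inr 1)))) P := by
        intro y
        simp only [Q]
        rw [aeval_bind]
        congr 2
        funext i
        rcases i with i | i
        · simp only [Sum.elim_inl]
          exact aeval_ptPoly y i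
        · simp only [Sum.elim_inr, map_add, map_mul, aeval_X, aeval_dpsPoly, aeval_dptPoly,
            Pi.add_apply, Pi.smul_apply, smul_eq_mul]
      have h1 : aeval x₀ Q = 0 := by
        rw [hQ]
        change aeval (Sum.elim v w) P = 0
        rw [hPq, hp, mul_zero]
      have h2 := spe Q h1 (Sum.elim c (four s' t' a' b')) hc
      rw [hQ] at h2
      change aeval (Sum.elim (pt c s' t') (a' • dps c s' t' + b' • dpt c s' t')) P = 0 at h2
      rw [hcv, hPq] at h2
      rcases mul_eq_zero.1 h2 with h3 | h3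
      · exact absurd h3 hq
      · exact h3
    intro u hu
    have h1 := mem_cl.1 hu (MvPolynomial.map (algebraMap L ℂ) p) (fun y hy => by
      rw [← aeval_eq_eval_map]
      exact key y hy)
    rw [aeval_eq_eval_map]
    exact h1

end Pool.Agent.Helper48.VMRT
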